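import Pool.Agent.TH180.RT.Min

/-!
From tails to exponential moments, and the count as a cardinality of a set of pairs of polynomials.
-/

set_option autoImplicit false
set_option linter.all false
set_option maxHeartbeats 1000000

open Polynomial Finset

namespace Pool.Agent.TH180.RT

/-- the tail function -/
noncomputable def tl (c R : ℕ) : ℝ := (44 / (R : ℝ)) ^ (R / c)

theorem tl_nonneg (c R : ℕ) : 0 ≤ tl c R := by
  unfold tl
  positivity

theorem summable_tl {c : ℕ} (hc : 0 < c) (s : ℝ) (hs : 0 ≤ s) :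
    Summable fun R : ℕ => s ^ R * tl c R := by
  set u : ℝ := 2 * (s + 1) with hu
  have hu1 : 1 ≤ u := by rw [hu]; linarith
  have hu0 : 0 < u := by linarith
  obtain ⟨T, hT⟩ := exists_nat_ge (44 * u ^ c)
  have h1 : Summable fun R : ℕ => u ^ c * (1 / 2 : ℝ) ^ R :=
    (summable_geometric_of_lt_one (by norm_num) (by norm_num)).mul_left _
  have h2 : ∀ R : ℕ, 0 ≤ s ^ R * tl c R := fun R => mul_nonneg (pow_nonneg hs R) (tl_nonneg c R)
  rw [← summable_nat_add_iff (T + 1)]
  refine Summable.of_nonneg_of_le (fun R => h2 _) (fun R => ?_) ((summable_nat_add_iff (T + 1)).2 h1)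
  set r : ℕ := R + (T + 1) with hr
  have hr0 : (0 : ℝ) < r := by
    rw [hr]
    exact_mod_cast Nat.succ_pos _
  have h3 : 44 / (r : ℝ) ≤ (u ^ c)⁻¹ := by
    rw [div_le_iff₀ hr0, ← div_eq_inv_mul, le_div_iff₀ (by positivity)]
    have : (T : ℝ) ≤ r := by
      rw [hr]
      exact_mod_cast (by omega : T ≤ R + (T + 1))
    linarith
  have h4 : tl c r ≤ ((u ^ c)⁻¹) ^ (r / c) := by
    unfold tl
    exact pow_le_pow_left₀ (by positivity) h3 _
  have h5 : u ^ r ≤ u ^ (c * (r / c) + c) := by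
    apply pow_le_pow_right₀ hu1
    have := Nat.lt_mul_div_succ r hc
    rw [mul_add, mul_one] at this
    exact this.le
  have h6 : ((u ^ c)⁻¹) ^ (r / c) ≤ u ^ c / u ^ r := by
    rw [inv_pow, ← pow_mul, le_div_iff₀ (by positivity), inv_mul_le_iff₀ (by positivity),
      ← pow_add]
    exact h5
  have h7 : s ^ r ≤ (u / 2) ^ r := by
    apply pow_le_pow_left₀ hs
    rw [hu]
    linarith
  calc s ^ r * tl c r ≤ (u / 2) ^ r * (u ^ c / u ^ r) := by
        apply mul_le_mul h7 (h4.trans h6) (tl_nonneg c r)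
        positivity
    _ = u ^ c * (1 / 2) ^ r := by
        rw [div_pow, one_div, inv_pow]
        field_simp

/-- the constant -/
noncomputable def cst (c : ℕ) (K s : ℝ) : ℝ := 1 + K * ∑' R : ℕ, s ^ R * tl c R

open Classical in
/-- exponential moments -/
theorem exp_moment {Ω : Type} (M : Finset Ω) (r : Ω → ℕ) {c : ℕ} (hc : 0 < c) {K : ℝ} (hK : 0 ≤ K)
    (h : ∀ R : ℕ, 0 < R → ((M.filter fun ω => R ≤ r ω).card : ℝ) ≤ K * tl c R * M.card) {s : ℝ}
    (hs : 0 ≤ s) : ∑ ω ∈ M, s ^ r ω ≤ cst c K s * M.card := by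
  set L := M.sup r with hL
  have h1 : ∀ ω ∈ M, s ^ r ω ≤ ∑ R ∈ range (L + 1), if R ≤ r ω then s ^ R else 0 := by
    intro ω hω
    have h2 : r ω ∈ range (L + 1) := by
      rw [mem_range]
      exact Nat.lt_succ_of_le (le_sup hω)
    refine le_trans ?_ (single_le_sum (f := fun R => if R ≤ r ω then s ^ R else 0) ?_ h2)
    · simp
    · intro i _
      split_ifs
      · exact pow_nonneg hs _
      · exact le_rfl
  refine (sum_le_sum h1).trans ?_
  rw [sum_comm]
  have h2 : ∀ R ∈ range (L + 1), (∑ ω ∈ M, if R ≤ r ω then s ^ R else 0) =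
      s ^ R * ((M.filter fun ω => R ≤ r ω).card : ℝ) := by
    intro R _
    rw [← sum_filter, sum_const, nsmul_eq_mul, mul_comm]
  rw [sum_congr rfl h2, sum_range_succ']
  have h3 : ∑ R ∈ range L, s ^ (R + 1) * ((M.filter fun ω => R + 1 ≤ r ω).card : ℝ) ≤
      K * (∑' R : ℕ, s ^ R * tl c R) * M.card := by
    calc ∑ R ∈ range L, s ^ (R + 1) * ((M.filter fun ω => R + 1 ≤ r ω).card : ℝ) ≤
          ∑ R ∈ range L, s ^ (R + 1) * (K * tl c (R + 1) * M.card) := by
          refine sum_le_sum fun R _ => ?_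
          exact mul_le_mul_of_nonneg_left (h _ (Nat.succ_pos R)) (pow_nonneg hs _)
      _ = K * (∑ R ∈ range L, s ^ (R + 1) * tl c (R + 1)) * M.card := by
          rw [mul_sum, sum_mul]
          exact sum_congr rfl fun R _ => by ring
      _ ≤ K * (∑' R : ℕ, s ^ R * tl c R) * M.card := by
          apply mul_le_mul_of_nonneg_right _ (Nat.cast_nonneg _)
          apply mul_le_mul_of_nonneg_left _ hK
          have h4 := (summable_tl hc s hs).sum_le_tsum (range (L + 1)) (fun R _ =>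
            mul_nonneg (pow_nonneg hs R) (tl_nonneg c R))
          rw [sum_range_succ'] at h4
          have h5 : 0 ≤ s ^ 0 * tl c 0 := mul_nonneg (pow_nonneg hs 0) (tl_nonneg c 0)
          linarith
  unfold cst
  have h4 : s ^ 0 * ((M.filter fun ω => 0 ≤ r ω).card : ℝ) = M.card := by
    rw [pow_zero, one_mul]
    congr 2
    rw [filter_true_of_mem]
    intro ω _
    exact Nat.zero_le _
  rw [h4]
  linarith

variable {k : Type} [Field k] [Fintype k] [DecidableEq k]

open Classical in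
/-- the count as a cardinality of a set of pairs of polynomials -/
theorem ncard_eq (d : ℕ) (p : k[X] → k[X] → Prop)
    (hp : ∀ A B, p A B → A.natDegree ≤ 4 * d ∧ B.natDegree ≤ 6 * d) :
    {x : k[X] × k[X] | p x.1 x.2}.ncard =
      (univ.filter fun ω : Om k (4 * d + 1) (6 * d + 1) => p ω.1.1 ω.2.1).card := by
  have hinj : Function.Injective fun ω : Om k (4 * d + 1) (6 * d + 1) => (ω.1.1, ω.2.1) := by
    intro ω ω' h
    simp only [Prod.mk.injEq] at h
    exact Prod.ext (Subtype.ext h.1) (Subtype.ext h.2)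
  have e : {x : k[X] × k[X] | p x.1 x.2} =
      (fun ω : Om k (4 * d + 1) (6 * d + 1) => (ω.1.1, ω.2.1)) ''
        ((univ.filter fun ω : Om k (4 * d + 1) (6 * d + 1) => p ω.1.1 ω.2.1 :
          Finset (Om k (4 * d + 1) (6 * d + 1))) : Set (Om k (4 * d + 1) (6 * d + 1))) := by
    ext x
    constructor
    · intro hx
      obtain ⟨h1, h2⟩ := hp _ _ hx
      refine ⟨(⟨x.1, mem_of_natDegree h1⟩, ⟨x.2, mem_of_natDegree h2⟩), ?_, rfl⟩
      rw [mem_coe, mem_filter]
      exact ⟨mem_univ _, hx⟩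
    · rintro ⟨ω, hω, rfl⟩
      rw [mem_coe, mem_filter] at hω
      exact hω.2
  rw [e, Set.ncard_image_of_injective _ hinj, Set.ncard_coe_finset]

open Classical in
/-- the tail among the minimal equations -/
theorem tail_min (h6 : (6 : k) ≠ 0) {d : ℕ} (hd : 0 < d) {R : ℕ} (hR : 0 < R) :
    ((univ.filter fun ω : Om k (4 * d + 1) (6 * d + 1) =>
      IsMin d ω.1.1 ω.2.1 ∧ Big d R ω.1.1 ω.2.1).card : ℝ) ≤ 2 * tl 18 R *
      ((univ.filter fun ω : Om k (4 * d + 1) (6 * d + 1) => IsMin d ω.1.1 ω.2.1).card : ℝ) := by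
  have h1 := tail h6 d R hR
  have h2 := card_min h6 hd
  have h3 : ((univ.filter fun ω : Om k (4 * d + 1) (6 * d + 1) =>
      IsMin d ω.1.1 ω.2.1 ∧ Big d R ω.1.1 ω.2.1).card : ℝ) ≤
      ((univ.filter fun ω : Om k (4 * d + 1) (6 * d + 1) => Big d R ω.1.1 ω.2.1).card : ℝ) := by
    exact_mod_cast card_le_card fun ω hω => by
      rw [mem_filter] at hω ⊢
      exact ⟨mem_univ _, hω.2.2⟩
  have h4 := tl_nonneg 18 R
  refine (h3.trans h1).trans ?_
  show tl 18 R * (Nat.card k : ℝ) ^ (10 * d + 2) ≤ _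
  calc tl 18 R * (Nat.card k : ℝ) ^ (10 * d + 2) =
        2 * tl 18 R * ((Nat.card k : ℝ) ^ (10 * d + 2) / 2) := by ring
    _ ≤ _ := mul_le_mul_of_nonneg_left h2 (by positivity)

end Pool.Agent.TH180.RT
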