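import Pool.Agent.TH180.RT.Cnt

/-!
The number of minimal equations of given height.
-/

set_option autoImplicit false
set_option linter.all false
set_option maxHeartbeats 1000000

open Polynomial Finset

namespace Pool.Agent.TH180.RT

open Pool.Agent.H341R2.Sharp (Irr mem_Irr)

/-- minimal equations of height `d` -/
def IsMin {k : Type} [Field k] (d : ℕ) (A B : k[X]) : Prop :=
  A.natDegree ≤ 4 * d ∧ B.natDegree ≤ 6 * d ∧
    (0 < d → ¬ (A.natDegree + 4 ≤ 4 * d ∧ B.natDegree + 6 ≤ 6 * d)) ∧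
    4 * A ^ 3 + 27 * B ^ 2 ≠ 0 ∧ ∀ P : k[X], Irreducible P → ¬ (P ^ 4 ∣ A ∧ P ^ 6 ∣ B)

variable {k : Type} [Field k] [Fintype k] [DecidableEq k]

theorem half_sum (d : ℕ) : ∑ e ∈ Icc 1 d, ((1 : ℝ) / 2) ^ e ≤ 1 := by
  have h : ∀ d : ℕ, ∑ e ∈ Icc 1 d, ((1 : ℝ) / 2) ^ e = 1 - (1 / 2) ^ d := by
    intro d
    induction d with
    | zero => simp
    | succ d ih =>
      rw [Finset.sum_Icc_succ_top (by omega : 1 ≤ d + 1), ih, pow_succ]
      ring
  rw [h]
  have : (0 : ℝ) < (1 / 2) ^ d := by positivity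
  linarith

theorem q_two : (2 : ℝ) ≤ Nat.card k := by exact_mod_cast (Finite.one_lt_card : 1 < Nat.card k)

theorem mem_of_natDegree {D : ℕ} {A : k[X]} (h : A.natDegree ≤ D) : A ∈ degreeLT k (D + 1) := by
  rw [mem_degreeLT]
  exact (degree_le_natDegree).trans_lt (by exact_mod_cast Nat.lt_succ_of_le h)

theorem natDegree_of_mem {D : ℕ} {A : k[X]} (h : A ∈ degreeLT k (D + 1)) : A.natDegree ≤ D := by
  rw [mem_degreeLT] at h
  by_cases h0 : A = 0
  · rw [h0]; simp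
  · rw [degree_eq_natDegree h0] at h
    have : A.natDegree < D + 1 := by exact_mod_cast h
    omega

open Classical in
theorem card_small {D₁ D₂ : ℕ} :
    (univ.filter fun ω : Om k (D₁ + 4 + 1) (D₂ + 6 + 1) =>
      ω.1.1.natDegree ≤ D₁ ∧ ω.2.1.natDegree ≤ D₂).card ≤ Nat.card k ^ (D₁ + 1 + (D₂ + 1)) := by
  have h1 : (univ : Finset (Om k (D₁ + 1) (D₂ + 1))).card = Nat.card k ^ (D₁ + 1 + (D₂ + 1)) := by
    rw [card_univ, Fintype.card_prod, card_LT, card_LT, Nat.card_eq_fintype_card, ← pow_add]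
  rw [← h1]
  refine card_le_card_of_injOn
    (fun ω => if h : ω.1.1.natDegree ≤ D₁ ∧ ω.2.1.natDegree ≤ D₂ then
      (⟨ω.1.1, mem_of_natDegree h.1⟩, ⟨ω.2.1, mem_of_natDegree h.2⟩) else 0)
    (fun _ _ => mem_coe.2 (mem_univ _)) ?_
  intro ω hω ω' hω' h
  rw [mem_coe, mem_filter] at hω hω'
  simp only [dif_pos hω.2, dif_pos hω'.2, Prod.mk.injEq, Subtype.mk.injEq] at h
  exact Prod.ext (Subtype.ext h.1) (Subtype.ext h.2)

open Classical in
/-- at least one half of the equations are minimal -/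
theorem card_min (h6 : (6 : k) ≠ 0) {d : ℕ} (hd : 0 < d) :
    (Nat.card k : ℝ) ^ (10 * d + 2) / 2 ≤
      ((univ.filter fun ω : Om k (4 * d + 1) (6 * d + 1) => IsMin d ω.1.1 ω.2.1).card : ℝ) := by
  obtain ⟨e, rfl⟩ := Nat.exists_eq_succ_of_ne_zero hd.ne'
  set q : ℝ := (Nat.card k : ℝ) with hq
  have hq2 : (2 : ℝ) ≤ q := q_two
  have hq0 : (0 : ℝ) < q := by linarith
  set D := 10 * (e + 1) + 2 with hD
  have hqD : 0 < q ^ D := pow_pos hq0 D
  -- the three exceptional sets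
  set S1 := univ.filter fun ω : Om k (4 * (e + 1) + 1) (6 * (e + 1) + 1) =>
    ω.1.1.natDegree ≤ 4 * e ∧ ω.2.1.natDegree ≤ 6 * e with hS1
  set S2 := univ.filter fun ω : Om k (4 * (e + 1) + 1) (6 * (e + 1) + 1) =>
    (ω.1.1 ≠ 0 ∨ ω.2.1 ≠ 0) ∧
      ∃ P : k[X], P.Monic ∧ Irreducible P ∧ P ^ 4 ∣ ω.1.1 ∧ P ^ 6 ∣ ω.2.1 with hS2
  set S3 := univ.filter fun ω : Om k (4 * (e + 1) + 1) (6 * (e + 1) + 1) =>
    4 * ω.1.1 ^ 3 + 27 * ω.2.1 ^ 2 = 0 with hS3
  set S0 := univ.filter fun ω : Om k (4 * (e + 1) + 1) (6 * (e + 1) + 1) =>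
    IsMin (e + 1) ω.1.1 ω.2.1 with hS0
  have hcov : (univ : Finset (Om k (4 * (e + 1) + 1) (6 * (e + 1) + 1))) ⊆
      S0 ∪ (S1 ∪ (S2 ∪ S3)) := by
    intro ω _
    by_contra hn
    rw [mem_union, mem_union, mem_union, hS0, hS1, hS2, hS3, mem_filter, mem_filter, mem_filter,
      mem_filter] at hn
    push Not at hn
    obtain ⟨n0, n1, n2, n3⟩ := hn
    apply n0 (mem_univ _)
    have hΔ := n3 (mem_univ _)
    have hA := natDegree_of_mem ω.1.2
    have hB := natDegree_of_mem ω.2.2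
    refine ⟨hA, hB, fun _ h => ?_, hΔ, fun P hP h => ?_⟩
    · have := n1 (mem_univ _) (by omega)
      omega
    · have h0 : ω.1.1 ≠ 0 ∨ ω.2.1 ≠ 0 := by
        by_contra h0
        push Not at h0
        apply hΔ
        rw [h0.1, h0.2]
        ring
      have hP0 := hP.ne_zero
      have hl : C P.leadingCoeff⁻¹ ≠ (0 : k[X]) :=
        C_ne_zero.2 (inv_ne_zero (leadingCoeff_ne_zero.2 hP0))
      have hu : IsUnit (C P.leadingCoeff⁻¹ : k[X]) :=
        isUnit_C.2 (isUnit_iff_ne_zero.2 (inv_ne_zero (leadingCoeff_ne_zero.2 hP0)))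
      have hass : Associated P (P * C P.leadingCoeff⁻¹) := (associated_mul_unit_right _ _ hu)
      refine n2 (mem_univ _) h0 (P * C P.leadingCoeff⁻¹) (monic_mul_leadingCoeff_inv hP0)
        (hass.irreducible hP) ?_ ?_
      · exact (hass.pow_pow (n := 4)).symm.dvd.trans h.1
      · exact (hass.pow_pow (n := 6)).symm.dvd.trans h.2
  have hcard := card_le_card hcov
  have h4 : (S0 ∪ (S1 ∪ (S2 ∪ S3))).card ≤ S0.card + (S1.card + (S2.card + S3.card)) := by
    refine (card_union_le _ _).trans (Nat.add_le_add_left ?_ _)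
    refine (card_union_le _ _).trans (Nat.add_le_add_left ?_ _)
    exact card_union_le _ _
  have hu : ((univ : Finset (Om k (4 * (e + 1) + 1) (6 * (e + 1) + 1))).card : ℝ) = q ^ D := by
    rw [card_univ, Fintype.card_prod, card_LT, card_LT, ← pow_add, ← Nat.card_eq_fintype_card]
    push_cast
    rw [hD]
    congr 1
    ring
  have hb1 : (S1.card : ℝ) ≤ q ^ D / 16 := by
    have h5 := card_small (k := k) (D₁ := 4 * e) (D₂ := 6 * e)
    have h6 : S1.card ≤ Nat.card k ^ (4 * e + 1 + (6 * e + 1)) := h5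
    have h7 : (S1.card : ℝ) ≤ q ^ (4 * e + 1 + (6 * e + 1)) := by
      rw [hq]
      exact_mod_cast h6
    have h8 : q ^ D = q ^ (4 * e + 1 + (6 * e + 1)) * q ^ 10 := by
      rw [← pow_add, hD]
      congr 1
      ring
    have h9 : (16 : ℝ) ≤ q ^ 10 := by
      calc (16 : ℝ) ≤ 2 ^ 10 := by norm_num
        _ ≤ q ^ 10 := pow_le_pow_left₀ (by norm_num) hq2 10
    have h10 : 0 < q ^ (4 * e + 1 + (6 * e + 1)) := by positivity
    rw [le_div_iff₀ (by norm_num), h8]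
    nlinarith
  have hb2 : (S2.card : ℝ) ≤ q ^ D / 16 := by
    have h5 := card_common (k := k) (i := 4) (j := 6) (D₁ := 4 * (e + 1) + 1)
      (D₂ := 6 * (e + 1) + 1) (T := e + 1) (by omega) (by omega) (by omega) (by omega)
    refine h5.trans ?_
    have h7 : ∀ c ∈ Icc 1 (e + 1), ((Pd k c).card : ℝ) *
        (Nat.card k : ℝ) ^ (4 * (e + 1) + 1 - 4 * c + (6 * (e + 1) + 1 - 6 * c)) ≤
        q ^ D / 16 * (1 / 2) ^ c := by
      intro c hc
      rw [mem_Icc] at hc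
      have h8 : ((Pd k c).card : ℝ) ≤ q ^ c := by
        have h9 := card_Pd_real (k := k) c
        have h10 : (1 : ℝ) ≤ c := by exact_mod_cast hc.1
        have h11 : (0 : ℝ) ≤ (Pd k c).card := Nat.cast_nonneg _
        nlinarith
      have h9 : q ^ D = q ^ c * q ^ (4 * (e + 1) + 1 - 4 * c + (6 * (e + 1) + 1 - 6 * c)) *
          q ^ (9 * c) := by
        rw [← pow_add, ← pow_add, hD]
        congr 1
        omega
      have h10 : (16 : ℝ) * 2 ^ c ≤ q ^ (9 * c) := by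
        calc (16 : ℝ) * 2 ^ c = 2 ^ (4 + c) := by rw [pow_add]; norm_num
          _ ≤ 2 ^ (9 * c) := pow_le_pow_right₀ (by norm_num) (by omega)
          _ ≤ q ^ (9 * c) := pow_le_pow_left₀ (by norm_num) hq2 _
      have h11 : 0 < q ^ c * q ^ (4 * (e + 1) + 1 - 4 * c + (6 * (e + 1) + 1 - 6 * c)) := by
        positivity
      calc ((Pd k c).card : ℝ) * q ^ (4 * (e + 1) + 1 - 4 * c + (6 * (e + 1) + 1 - 6 * c)) ≤
            q ^ c * q ^ (4 * (e + 1) + 1 - 4 * c + (6 * (e + 1) + 1 - 6 * c)) :=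
            mul_le_mul_of_nonneg_right h8 (by positivity)
        _ = q ^ D / q ^ (9 * c) := by
            rw [h9]
            field_simp
        _ ≤ q ^ D / (16 * 2 ^ c) := div_le_div_of_nonneg_left hqD.le (by positivity) h10
        _ = q ^ D / 16 * (1 / 2) ^ c := by
            rw [div_pow, one_pow]
            field_simp
    refine (sum_le_sum h7).trans ?_
    rw [← mul_sum]
    calc q ^ D / 16 * ∑ c ∈ Icc 1 (e + 1), ((1 : ℝ) / 2) ^ c ≤ q ^ D / 16 * 1 :=
          mul_le_mul_of_nonneg_left (half_sum _) (by positivity)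
      _ = q ^ D / 16 := mul_one _
  have hb3 : (S3.card : ℝ) ≤ q ^ D / 16 := by
    have h5 : S3.card ≤ 2 * Nat.card k ^ (4 * (e + 1) + 1) :=
      card_sing h6 (4 * (e + 1) + 1) (6 * (e + 1) + 1)
    have h7 : (S3.card : ℝ) ≤ 2 * q ^ (4 * (e + 1) + 1) := by
      rw [hq]
      exact_mod_cast h5
    have h8 : q ^ D = q ^ (4 * (e + 1) + 1) * q ^ (6 * e + 7) := by
      rw [← pow_add, hD]
      congr 1
      ring
    have h9 : (32 : ℝ) ≤ q ^ (6 * e + 7) := by
      calc (32 : ℝ) ≤ 2 ^ 7 := by norm_num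
        _ ≤ 2 ^ (6 * e + 7) := pow_le_pow_right₀ (by norm_num) (by omega)
        _ ≤ q ^ (6 * e + 7) := pow_le_pow_left₀ (by norm_num) hq2 _
    have h10 : 0 < q ^ (4 * (e + 1) + 1) := by positivity
    refine h7.trans ?_
    rw [le_div_iff₀ (by norm_num), h8]
    nlinarith
  have h5 : q ^ D ≤ (S0.card : ℝ) + ((S1.card : ℝ) + ((S2.card : ℝ) + (S3.card : ℝ))) := by
    rw [← hu]
    exact_mod_cast hcard.trans h4
  show q ^ D / 2 ≤ _
  linarith

end Pool.Agent.TH180.RT
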