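import Mathlib

/-!
The Fejer kernel.
-/

set_option autoImplicit false
set_option linter.all false
set_option maxHeartbeats 1000000

open Finset

namespace Pool.Agent.TH180.RT

theorem re_shift {z : ℂ} (hz : ‖z‖ = 1) (X : ℕ) :
    ((∑ j ∈ range X, z ^ j) * (starRingEnd ℂ) (z ^ X)).re =
      ∑ m ∈ range (X + 1), (z ^ m).re - 1 := by
  rw [sum_mul, Complex.re_sum]
  have h1 : ∀ j ∈ range X, (z ^ j * (starRingEnd ℂ) (z ^ X)).re = (z ^ (X - 1 - j + 1)).re := by
    intro j hj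
    rw [mem_range] at hj
    have e : z ^ X = z ^ j * z ^ (X - 1 - j + 1) := by
      rw [← pow_add]
      congr 1
      omega
    rw [e, map_mul, ← mul_assoc, Complex.mul_conj, Complex.normSq_eq_norm_sq, norm_pow, hz]
    simp only [one_pow, Complex.ofReal_one, one_mul, Complex.conj_re]
  rw [sum_congr rfl h1, sum_range_reflect (fun j => (z ^ (j + 1)).re) X, sum_range_succ' _ X]
  simp

theorem fejer {z : ℂ} (hz : ‖z‖ = 1) (X : ℕ) :
    ‖∑ j ∈ range X, z ^ j‖ ^ 2 = 2 * ∑ m ∈ range X, ((X : ℝ) - m) * (z ^ m).re - X := by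
  induction X with
  | zero => simp
  | succ X ih =>
    have h1 : ‖∑ j ∈ range (X + 1), z ^ j‖ ^ 2 = ‖∑ j ∈ range X, z ^ j‖ ^ 2 + 1 +
        2 * ((∑ j ∈ range X, z ^ j) * (starRingEnd ℂ) (z ^ X)).re := by
      rw [sum_range_succ, ← Complex.normSq_eq_norm_sq, ← Complex.normSq_eq_norm_sq,
        Complex.normSq_add, Complex.normSq_eq_norm_sq (z ^ X), norm_pow, hz]
      ring
    have h2 : ∑ m ∈ range (X + 1), (((X + 1 : ℕ) : ℝ) - m) * (z ^ m).re =
        ∑ m ∈ range X, ((X : ℝ) - m) * (z ^ m).re + ∑ m ∈ range (X + 1), (z ^ m).re := by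
      rw [sum_range_succ, sum_range_succ (fun m => (z ^ m).re), ← add_assoc, ← sum_add_distrib]
      push_cast
      congr 1
      · exact sum_congr rfl fun m _ => by ring
      · ring
    rw [h1, ih, re_shift hz, h2]
    push_cast
    ring

open Classical in
/-- the bound for the multiplicity of the eigenvalue one -/
theorem fejer_bound {N : ℕ} {β : Fin N → ℂ} (hβ : ∀ i, ‖β i‖ = 1) (X : ℕ) :
    ((univ.filter fun i => β i = 1).card : ℝ) * X ^ 2 ≤
      X * N + 2 * ∑ m ∈ Ico 1 X, ((X : ℝ) - m) * (∑ i, β i ^ m).re := by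
  have h1 : ∑ i, ‖∑ j ∈ range X, β i ^ j‖ ^ 2 =
      X * N + 2 * ∑ m ∈ Ico 1 X, ((X : ℝ) - m) * (∑ i, β i ^ m).re := by
    rw [sum_congr rfl fun i _ => fejer (hβ i) X, sum_sub_distrib, ← mul_sum, sum_comm]
    rcases Nat.eq_zero_or_pos X with h0 | h0
    · subst h0
      simp
    · rw [range_eq_Ico, sum_eq_sum_Ico_succ_bot h0]
      have e : ∀ m ∈ Ico 1 X, ∑ i, ((X : ℝ) - m) * (β i ^ m).re =
          ((X : ℝ) - m) * (∑ i, β i ^ m).re := by
        intro m _
        rw [Complex.re_sum, mul_sum]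
      rw [show 0 + 1 = 1 from rfl, sum_congr rfl e]
      simp
      ring
  rw [← h1]
  calc ((univ.filter fun i => β i = 1).card : ℝ) * X ^ 2 =
        ∑ i ∈ univ.filter (fun i => β i = 1), (X : ℝ) ^ 2 := by
        rw [sum_const, nsmul_eq_mul]
    _ ≤ ∑ i ∈ univ.filter (fun i => β i = 1), ‖∑ j ∈ range X, β i ^ j‖ ^ 2 := by
        refine sum_le_sum fun i hi => ?_
        rw [mem_filter] at hi
        rw [hi.2]
        simp
    _ ≤ ∑ i, ‖∑ j ∈ range X, β i ^ j‖ ^ 2 :=
        sum_le_sum_of_subset_of_nonneg (filter_subset _ _) fun i _ _ => by positivity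

end Pool.Agent.TH180.RT
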