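import Pool.Agent.TH180.RT.Sym2
import Pool.Agent.TH180.RT.Fej

/-!
The number of primes, and the bound for the order of vanishing.
-/

set_option autoImplicit false
set_option linter.all false
set_option maxHeartbeats 1000000

open Polynomial Finset

namespace Pool.Agent.TH180.RT

open Pool.Agent.H341R2.Sharp (Irr mem_Irr)

variable {k : Type} [Field k] [Fintype k] [DecidableEq k]

/-- the primes of degree `m` -/
noncomputable def Pd (k : Type) [Field k] [Fintype k] [DecidableEq k] (m : ℕ) : Finset k[X] :=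
  (Irr k m).filter fun P => P.natDegree = m

theorem mem_Pd {m : ℕ} {P : k[X]} : P ∈ Pd k m ↔ P.Monic ∧ Irreducible P ∧ P.natDegree = m := by
  unfold Pd
  rw [mem_filter, mem_Irr]
  constructor
  · rintro ⟨⟨h1, h2, -⟩, h3⟩
    exact ⟨h1, h2, h3⟩
  · rintro ⟨h1, h2, h3⟩
    exact ⟨⟨h1, h2, h3.le⟩, h3⟩

theorem card_Pd (m : ℕ) : (Pd k m).card * m ≤ Nat.card k ^ m := by
  rcases Nat.eq_zero_or_pos m with h0 | h0
  · subst h0
    simp
  have hdvd : ∏ P ∈ Pd k m, P ∣ (X ^ Nat.card k ^ m - X : k[X]) := by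
    refine Finset.prod_dvd_of_coprime ?_ ?_
    · intro P hP Q hQ hne
      obtain ⟨p1, p2, p3⟩ := mem_Pd.1 hP
      obtain ⟨q1, q2, q3⟩ := mem_Pd.1 hQ
      refine (p2.coprime_iff_not_dvd.2 fun h => hne ?_)
      exact eq_of_monic_of_associated p1 q1 (p2.associated_of_dvd q2 h)
    · intro P hP
      obtain ⟨p1, p2, p3⟩ := mem_Pd.1 hP
      exact p2.natDegree_dvd_iff_dvd_X_pow_card_pow_sub_X.1 (by rw [p3])
  have hq : 1 < Nat.card k := Finite.one_lt_card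
  have hne : (X ^ Nat.card k ^ m - X : k[X]) ≠ 0 :=
    FiniteField.X_pow_card_pow_sub_X_ne_zero _ h0.ne' hq
  have h1 := natDegree_le_of_dvd hdvd hne
  rw [FiniteField.X_pow_card_pow_sub_X_natDegree_eq _ h0.ne' hq,
    natDegree_prod_of_monic _ _ fun P hP => (mem_Pd.1 hP).1,
    sum_congr rfl fun P hP => (mem_Pd.1 hP).2.2, sum_const, smul_eq_mul] at h1
  exact h1

theorem card_Pd_real (m : ℕ) : ((Pd k m).card : ℝ) * m ≤ (Nat.card k : ℝ) ^ m := by
  exact_mod_cast card_Pd (k := k) m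

theorem Irr_eq (Y : ℕ) : Irr k Y = (Icc 1 Y).biUnion (Pd k) := by
  ext P
  rw [mem_Irr, mem_biUnion]
  constructor
  · rintro ⟨h1, h2, h3⟩
    exact ⟨P.natDegree, mem_Icc.2 ⟨h2.natDegree_pos, h3⟩, mem_Pd.2 ⟨h1, h2, rfl⟩⟩
  · rintro ⟨m, hm, hP⟩
    obtain ⟨p1, p2, p3⟩ := mem_Pd.1 hP
    rw [mem_Icc] at hm
    exact ⟨p1, p2, by omega⟩

theorem sum_Irr (Y : ℕ) (f : k[X] → ℝ) :
    ∑ P ∈ Irr k Y, f P = ∑ m ∈ Icc 1 Y, ∑ P ∈ Pd k m, f P := by
  rw [Irr_eq, sum_biUnion]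
  intro a _ b _ hab
  rw [Function.onFun, disjoint_left]
  intro P hP hP'
  exact hab ((mem_Pd.1 hP).2.2.symm.trans (mem_Pd.1 hP').2.2)

/-- the weight -/
noncomputable def wt (k : Type) [Field k] (Y : ℕ) (P : k[X]) : ℝ :=
  -(2 / (Y : ℝ) ^ 2 * ((Y : ℝ) - P.natDegree) * P.natDegree / (Nat.card k : ℝ) ^ P.natDegree)

theorem q_pos : (0 : ℝ) < Nat.card k := by exact_mod_cast Nat.card_pos

theorem sq_pow (m : ℕ) : (√(Nat.card k : ℝ) ^ m) ^ 2 = (Nat.card k : ℝ) ^ m := by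
  rw [← pow_mul, mul_comm, pow_mul, Real.sq_sqrt (Nat.cast_nonneg _)]

theorem sum_nat (Y : ℕ) : ∑ m ∈ Icc 1 (Y - 1), (m : ℝ) ≤ Y ^ 2 / 2 := by
  have h4 : ∑ m ∈ Icc 1 (Y - 1), (m : ℝ) ≤ ∑ m ∈ range Y, (m : ℝ) := by
    apply sum_le_sum_of_subset_of_nonneg
    · intro x hx
      rw [mem_Icc] at hx
      rw [mem_range]
      omega
    · intro i _ _
      exact Nat.cast_nonneg _
  have h2 : (((∑ m ∈ range Y, m) * 2 : ℕ) : ℝ) = ((Y * (Y - 1) : ℕ) : ℝ) :=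
    congrArg _ (Finset.sum_range_id_mul_two Y)
  rw [Nat.cast_mul, Nat.cast_mul, Nat.cast_sum] at h2
  have h5 : ((Y - 1 : ℕ) : ℝ) ≤ Y := by exact_mod_cast Nat.sub_le _ _
  have h6 : (0 : ℝ) ≤ Y := Nat.cast_nonneg _
  push_cast at h2
  nlinarith

/-- the variance -/
theorem var_bound (h6 : (6 : k) ≠ 0) {Y : ℕ} (hY : 0 < Y) (A B : k[X]) :
    ∑ P ∈ Irr k (Y - 1), (wt k Y P * trP A B P) ^ 2 ≤ 8 := by
  have hY' : (0 : ℝ) < Y := by exact_mod_cast hY
  have hq := q_pos (k := k)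
  rw [sum_Irr]
  have h1 : ∀ m ∈ Icc 1 (Y - 1), ∑ P ∈ Pd k m, (wt k Y P * trP A B P) ^ 2 ≤
      16 / (Y : ℝ) ^ 2 * m := by
    intro m hm
    rw [mem_Icc] at hm
    have hm0 : (0 : ℝ) < m := by exact_mod_cast hm.1
    have h2 : ∀ P ∈ Pd k m, (wt k Y P * trP A B P) ^ 2 ≤
        16 / (Y : ℝ) ^ 2 * m ^ 2 / (Nat.card k : ℝ) ^ m := by
      intro P hP
      obtain ⟨p1, p2, p3⟩ := mem_Pd.1 hP
      have h3 := trP_bound h6 p2 A B
      rw [p3] at h3
      have h4 : |wt k Y P| ≤ 2 / (Y : ℝ) * m / (Nat.card k : ℝ) ^ m := by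
        unfold wt
        rw [p3, abs_neg, abs_of_nonneg]
        · apply div_le_div_of_nonneg_right _ (by positivity)
          apply mul_le_mul_of_nonneg_right _ hm0.le
          have : ((Y : ℝ) - m) ≤ Y := by linarith
          calc 2 / (Y : ℝ) ^ 2 * ((Y : ℝ) - m) ≤ 2 / (Y : ℝ) ^ 2 * Y :=
                mul_le_mul_of_nonneg_left this (by positivity)
            _ = 2 / (Y : ℝ) := by field_simp
        · have : (0 : ℝ) ≤ (Y : ℝ) - m := by
            have : (m : ℝ) ≤ Y := by exact_mod_cast (by omega : m ≤ Y)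
            linarith
          positivity
      have h5 : |wt k Y P * trP A B P| ≤
          2 / (Y : ℝ) * m / (Nat.card k : ℝ) ^ m * (2 * √(Nat.card k) ^ m) := by
        rw [abs_mul]
        exact mul_le_mul h4 h3 (abs_nonneg _) (by positivity)
      calc (wt k Y P * trP A B P) ^ 2 = |wt k Y P * trP A B P| ^ 2 := (sq_abs _).symm
        _ ≤ (2 / (Y : ℝ) * m / (Nat.card k : ℝ) ^ m * (2 * √(Nat.card k) ^ m)) ^ 2 :=
            pow_le_pow_left₀ (abs_nonneg _) h5 2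
        _ = 16 / (Y : ℝ) ^ 2 * m ^ 2 / (Nat.card k : ℝ) ^ m := by
            have := sq_pow (k := k) m
            rw [mul_pow, mul_pow 2, this]
            field_simp
            ring
    refine (sum_le_sum h2).trans ?_
    rw [sum_const, nsmul_eq_mul]
    have h7 := card_Pd_real (k := k) m
    calc ((Pd k m).card : ℝ) * (16 / (Y : ℝ) ^ 2 * m ^ 2 / (Nat.card k : ℝ) ^ m) =
          ((Pd k m).card * m) * (16 / (Y : ℝ) ^ 2 * m / (Nat.card k : ℝ) ^ m) := by ring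
      _ ≤ (Nat.card k : ℝ) ^ m * (16 / (Y : ℝ) ^ 2 * m / (Nat.card k : ℝ) ^ m) :=
          mul_le_mul_of_nonneg_right h7 (by positivity)
      _ = 16 / (Y : ℝ) ^ 2 * m := by field_simp
  refine (sum_le_sum h1).trans ?_
  rw [← mul_sum]
  calc 16 / (Y : ℝ) ^ 2 * ∑ m ∈ Icc 1 (Y - 1), (m : ℝ) ≤ 16 / (Y : ℝ) ^ 2 * (Y ^ 2 / 2) :=
        mul_le_mul_of_nonneg_left (sum_nat Y) (by positivity)
    _ = 8 := by
      field_simp
      norm_num

end Pool.Agent.TH180.RT
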