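import Pool.Agent.TH180.RT.Fin

/-!
Counting pairs of polynomials with common divisors.
-/

set_option autoImplicit false
set_option linter.all false
set_option maxHeartbeats 1000000

open Polynomial Finset

namespace Pool.Agent.TH180.RT

open Pool.Agent.H341R2.Sharp (Irr mem_Irr)

variable {k : Type} [Field k] [Fintype k] [DecidableEq k]

open Classical in
/-- multiples of a polynomial -/
theorem card_mult {Q : k[X]} (hQ : Q.Monic) {D r : ℕ} (hr : Q.natDegree = r) (hD : r ≤ D) :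
    (univ.filter fun A : degreeLT k D => Q ∣ A.1).card ≤ Nat.card k ^ (D - r) := by
  have h1 : (univ : Finset (degreeLT k (D - r))).card = Nat.card k ^ (D - r) := by
    rw [card_univ, card_LT, Nat.card_eq_fintype_card]
  rw [← h1]
  have hmem : ∀ A : degreeLT k D, Q ∣ A.1 → A.1 /ₘ Q ∈ degreeLT k (D - r) := by
    intro A hA
    obtain ⟨c, hc⟩ := hA
    rw [hc, mul_divByMonic_cancel_left _ hQ]
    by_cases h0 : c = 0
    · rw [h0]; exact Submodule.zero_mem _
    · have h2 := mem_degreeLT.1 A.2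
      rw [hc, degree_eq_natDegree (mul_ne_zero hQ.ne_zero h0), hQ.natDegree_mul' h0, hr] at h2
      rw [mem_degreeLT, degree_eq_natDegree h0]
      have h3 : r + c.natDegree < D := by exact_mod_cast h2
      exact_mod_cast (by omega : c.natDegree < D - r)
  refine card_le_card_of_injOn
    (fun A => if h : Q ∣ A.1 then ⟨A.1 /ₘ Q, hmem A h⟩ else 0) (fun _ _ => mem_coe.2 (mem_univ _)) ?_
  intro A hA A' hA' h
  rw [mem_coe, mem_filter] at hA hA'
  simp only [dif_pos hA.2, dif_pos hA'.2, Subtype.mk.injEq] at h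
  obtain ⟨c, hc⟩ := hA.2
  obtain ⟨c', hc'⟩ := hA'.2
  rw [hc, hc', mul_divByMonic_cancel_left _ hQ, mul_divByMonic_cancel_left _ hQ] at h
  apply Subtype.ext
  rw [hc, hc', h]

open Classical in
/-- multiples of a polynomial of large degree -/
theorem mult_zero {Q : k[X]} {D : ℕ} (hD : D ≤ Q.natDegree) (A : degreeLT k D) (h : Q ∣ A.1) :
    A.1 = 0 := by
  by_contra h0
  have h1 := natDegree_le_of_dvd h h0
  have h2 := mem_degreeLT.1 A.2
  rw [degree_eq_natDegree h0] at h2
  have h3 : A.1.natDegree < D := by exact_mod_cast h2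
  omega

open Classical in
/-- the pairs with `P ^ i ∣ A` and `P ^ j ∣ B` for a prime `P` -/
theorem card_common {i j D₁ D₂ T : ℕ} (hi : i * T ≤ D₁) (hj : j * T ≤ D₂)
    (hi' : D₁ ≤ i * (T + 1)) (hj' : D₂ ≤ j * (T + 1)) :
    ((univ.filter fun ω : Om k D₁ D₂ => (ω.1.1 ≠ 0 ∨ ω.2.1 ≠ 0) ∧
      ∃ P : k[X], P.Monic ∧ Irreducible P ∧ P ^ i ∣ ω.1.1 ∧ P ^ j ∣ ω.2.1).card : ℝ) ≤
      ∑ e ∈ Icc 1 T, ((Pd k e).card : ℝ) * (Nat.card k : ℝ) ^ (D₁ - i * e + (D₂ - j * e)) := by
  have h1 : (univ.filter fun ω : Om k D₁ D₂ => (ω.1.1 ≠ 0 ∨ ω.2.1 ≠ 0) ∧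
      ∃ P : k[X], P.Monic ∧ Irreducible P ∧ P ^ i ∣ ω.1.1 ∧ P ^ j ∣ ω.2.1) ⊆
      (Icc 1 T).biUnion fun e => (Pd k e).biUnion fun P =>
        (univ.filter fun A : degreeLT k D₁ => P ^ i ∣ A.1) ×ˢ
          (univ.filter fun B : degreeLT k D₂ => P ^ j ∣ B.1) := by
    intro ω hω
    rw [mem_filter] at hω
    obtain ⟨-, h0, P, p1, p2, p3, p4⟩ := hω
    have hT : P.natDegree ≤ T := by
      by_contra hT
      push Not at hT
      have a1 : ω.1.1 = 0 := mult_zero (Q := P ^ i) (by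
        rw [natDegree_pow]
        exact hi'.trans (Nat.mul_le_mul_left _ hT)) _ p3
      have a2 : ω.2.1 = 0 := mult_zero (Q := P ^ j) (by
        rw [natDegree_pow]
        exact hj'.trans (Nat.mul_le_mul_left _ hT)) _ p4
      rcases h0 with h | h
      · exact h a1
      · exact h a2
    rw [mem_biUnion]
    refine ⟨P.natDegree, mem_Icc.2 ⟨p2.natDegree_pos, hT⟩, ?_⟩
    rw [mem_biUnion]
    refine ⟨P, mem_Pd.2 ⟨p1, p2, rfl⟩, ?_⟩
    rw [mem_product, mem_filter, mem_filter]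
    exact ⟨⟨mem_univ _, p3⟩, ⟨mem_univ _, p4⟩⟩
  have h2 := (card_le_card h1).trans card_biUnion_le
  have h3 : ∀ e ∈ Icc 1 T, ((Pd k e).biUnion fun P =>
        (univ.filter fun A : degreeLT k D₁ => P ^ i ∣ A.1) ×ˢ
          (univ.filter fun B : degreeLT k D₂ => P ^ j ∣ B.1)).card ≤
      (Pd k e).card * Nat.card k ^ (D₁ - i * e + (D₂ - j * e)) := by
    intro e he
    rw [mem_Icc] at he
    refine card_biUnion_le.trans ?_
    rw [← smul_eq_mul, ← sum_const]
    refine sum_le_sum fun P hP => ?_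
    obtain ⟨p1, p2, p3⟩ := mem_Pd.1 hP
    rw [card_product, pow_add]
    apply Nat.mul_le_mul
    · apply card_mult (p1.pow i) (by rw [natDegree_pow, p3])
      exact (Nat.mul_le_mul_left _ he.2).trans hi
    · apply card_mult (p1.pow j) (by rw [natDegree_pow, p3])
      exact (Nat.mul_le_mul_left _ he.2).trans hj
  have h4 := h2.trans (sum_le_sum h3)
  exact_mod_cast h4

open Classical in
/-- the pairs with `4 A ^ 3 + 27 B ^ 2 = 0` -/
theorem card_sing (h6 : (6 : k) ≠ 0) (D₁ D₂ : ℕ) :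
    (univ.filter fun ω : Om k D₁ D₂ => 4 * ω.1.1 ^ 3 + 27 * ω.2.1 ^ 2 = 0).card ≤
      2 * Nat.card k ^ D₁ := by
  have h1 := card_le_mul_card_image (f := fun ω : Om k D₁ D₂ => ω.1)
    (univ.filter fun ω : Om k D₁ D₂ => 4 * ω.1.1 ^ 3 + 27 * ω.2.1 ^ 2 = 0) 2 (by
      intro A hA
      rw [mem_image] at hA
      obtain ⟨ω₀, hω₀, hA⟩ := hA
      rw [mem_filter] at hω₀
      have h27 : (27 : k[X]) ≠ 0 := by
        have h : (27 : k) ≠ 0 := by
          have : (27 : k) = 3 ^ 3 := by norm_num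
          rw [this]; exact pow_ne_zero _ (n3 h6)
        have e : (27 : k[X]) = C 27 := by rw [map_ofNat]
        rw [e]
        exact C_ne_zero.2 h
      have h5 : (univ.filter fun ω : Om k D₁ D₂ => 4 * ω.1.1 ^ 3 + 27 * ω.2.1 ^ 2 = 0).filter
          (fun ω => ω.1 = A) ⊆ {(A, ω₀.2), (A, -ω₀.2)} := by
        intro ω hω
        rw [mem_filter, mem_filter] at hω
        obtain ⟨⟨-, h7⟩, h8⟩ := hω
        have h9 := hω₀.2
        rw [hA] at h9
        rw [h8] at h7
        have h10 : (27 : k[X]) * ((ω.2.1 - ω₀.2.1) * (ω.2.1 + ω₀.2.1)) = 0 := by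
          linear_combination h7 - h9
        rw [mem_insert, mem_singleton]
        rcases mul_eq_zero.1 ((mul_eq_zero.1 h10).resolve_left h27) with h | h
        · left
          refine Prod.ext h8 (Subtype.ext ?_)
          exact sub_eq_zero.1 h
        · right
          refine Prod.ext h8 (Subtype.ext ?_)
          show ω.2.1 = -ω₀.2.1
          exact eq_neg_of_add_eq_zero_left h
      exact (card_le_card h5).trans (card_le_two))
  refine h1.trans ?_
  apply Nat.mul_le_mul_left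
  refine (card_le_univ _).trans ?_
  rw [card_LT, Nat.card_eq_fintype_card]

end Pool.Agent.TH180.RT
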