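import Pool.Agent.TH180.RT.Wt

/-!
The bound for the order of vanishing by a weighted sum of traces.
-/

set_option autoImplicit false
set_option linter.all false
set_option maxHeartbeats 1000000

open Polynomial Finset

namespace Pool.Agent.TH180.RT

open Pool.Agent.H341R2.Sharp (Irr mem_Irr)

variable {k : Type} [Field k] [Fintype k] [DecidableEq k]

open Classical in
/-- the local power sum at a prime -/
noncomputable def locP {k : Type} [Field k] (A B P : k[X]) (j : ℕ) : ℤ :=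
  fp ((Nat.card k : ℤ) ^ P.natDegree - pts (AdjoinRoot P) (AdjoinRoot.mk P A) (AdjoinRoot.mk P B))
    (if P ∣ 4 * A ^ 3 + 27 * B ^ 2 then 0 else (Nat.card k : ℤ) ^ P.natDegree) j

open Classical in
/-- the local power sum at infinity -/
noncomputable def locI {k : Type} [Field k] (a b : k) (j : ℕ) : ℤ :=
  fp ((Nat.card k : ℤ) - pts k a b) (if 4 * a ^ 3 + 27 * b ^ 2 = 0 then 0 else (Nat.card k : ℤ)) j

open Classical in
/-- the power sum -/
noncomputable def psum {k : Type} [Field k] (d : ℕ) (A B : k[X]) (m : ℕ) : ℤ :=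
  locI (A.coeff (4 * d)) (B.coeff (6 * d)) m +
    ∑ᶠ P : k[X], if P.Monic ∧ Irreducible P ∧ P.natDegree ∣ m then
      (P.natDegree : ℤ) * locP A B P (m / P.natDegree) else 0

theorem fp_local {a c : ℤ} {r : ℝ} (hr : 1 ≤ r) (ha : |(a : ℝ)| ≤ 2 * r) {p : Prop} [Decidable p]
    {c₀ : ℤ} (hc₀ : (c₀ : ℝ) = r ^ 2) (hc : c = if p then 0 else c₀) (hp : p → |a| ≤ 1) {j : ℕ}
    (hj : 0 < j) : |(fp a c j : ℝ)| ≤ 2 * r ^ j := by
  by_cases h : p
  · rw [if_pos h] at hc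
    subst hc
    rw [fp_bad a j hj]
    push_cast
    rw [abs_pow]
    have h1 : |(a : ℝ)| ≤ 1 := by exact_mod_cast hp h
    have h2 : |(a : ℝ)| ^ j ≤ 1 := pow_le_one₀ (abs_nonneg _) h1
    have h3 : (1 : ℝ) ≤ r ^ j := one_le_pow₀ hr
    linarith
  · rw [if_neg h] at hc
    subst hc
    exact fp_bound (by linarith) hc₀ ha j

theorem sqrt_one : (1 : ℝ) ≤ √(Nat.card k : ℝ) := by
  rw [Real.one_le_sqrt]
  exact_mod_cast Nat.card_pos (α := k)

theorem locP_bound (h6 : (6 : k) ≠ 0) {P : k[X]} (hP : Irreducible P) (A B : k[X]) {j : ℕ}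
    (hj : 0 < j) : |(locP A B P j : ℝ)| ≤ 2 * (√(Nat.card k) ^ P.natDegree) ^ j := by
  classical
  unfold locP
  refine fp_local (p := P ∣ 4 * A ^ 3 + 27 * B ^ 2) (one_le_pow₀ (sqrt_one (k := k)))
    (trP_bound h6 hP A B) (c₀ := (Nat.card k : ℤ) ^ P.natDegree) ?_ rfl ?_ hj
  · rw [sq_pow]
    push_cast
    rfl
  · intro hd
    have : Fact (Irreducible P) := ⟨hP⟩
    have := finAR hP.ne_zero
    let _ : Fintype (AdjoinRoot P) := Fintype.ofFinite _
    show |trP A B P| ≤ 1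
    rw [trP_eq hP A B]
    apply tr_sing (six_AR h6 hP)
    have h2 := AdjoinRoot.mk_eq_zero.2 hd
    rw [← h2]
    simp only [map_add, map_mul, map_pow, map_ofNat]

theorem locI_bound (h6 : (6 : k) ≠ 0) (a b : k) {j : ℕ}
    (hj : 0 < j) : |(locI a b j : ℝ)| ≤ 2 * √(Nat.card k) ^ j := by
  classical
  have e : (Nat.card k : ℤ) - pts k a b = tr a b := by
    unfold tr
    rw [Nat.card_eq_fintype_card]
  have h1 : |(tr a b : ℝ)| ≤ 2 * √(Nat.card k : ℝ) := by
    have := tr_bound h6 a b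
    rwa [← Nat.card_eq_fintype_card] at this
  have h2 : (((Nat.card k : ℕ) : ℤ) : ℝ) = √(Nat.card k : ℝ) ^ 2 := by
    rw [Real.sq_sqrt (Nat.cast_nonneg _), Int.cast_natCast]
  have h3 := fp_local (p := 4 * a ^ 3 + 27 * b ^ 2 = 0) (sqrt_one (k := k)) h1 h2
    (c := if 4 * a ^ 3 + 27 * b ^ 2 = 0 then 0 else ((Nat.card k : ℕ) : ℤ)) rfl
    (fun hd => tr_sing h6 hd) hj
  unfold locI
  rw [e]
  convert h3 using 5

theorem geom (n : ℕ) : ∑ e ∈ Icc 1 n, (Nat.card k : ℝ) ^ e ≤ 2 * (Nat.card k : ℝ) ^ n := by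
  have hq : (2 : ℝ) ≤ Nat.card k := by exact_mod_cast (Finite.one_lt_card : 1 < Nat.card k)
  induction n with
  | zero => simp
  | succ n ih =>
    rw [Finset.sum_Icc_succ_top (by omega : 1 ≤ n + 1), pow_succ]
    have : (0 : ℝ) < (Nat.card k : ℝ) ^ n := pow_pos q_pos n
    nlinarith

/-- the primes of smaller degree -/
theorem rest_bound (h6 : (6 : k) ≠ 0) (A B : k[X]) {m : ℕ} (hm : 0 < m) :
    |∑ P ∈ (Irr k m).filter (fun P => P.natDegree ∣ m ∧ P.natDegree ≠ m),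
      (P.natDegree : ℝ) * (locP A B P (m / P.natDegree) : ℝ)| ≤ 4 * (Nat.card k : ℝ) ^ m := by
  have hs0 : (0 : ℝ) ≤ √(Nat.card k : ℝ) := Real.sqrt_nonneg _
  have h1 : |∑ P ∈ (Irr k m).filter (fun P => P.natDegree ∣ m ∧ P.natDegree ≠ m),
      (P.natDegree : ℝ) * (locP A B P (m / P.natDegree) : ℝ)| ≤
      ∑ P ∈ (Irr k m).filter (fun P => P.natDegree ∣ m ∧ P.natDegree ≠ m),
        (P.natDegree : ℝ) * (2 * √(Nat.card k) ^ m) := by
    refine (abs_sum_le_sum_abs _ _).trans (sum_le_sum fun P hP => ?_)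
    rw [mem_filter, mem_Irr] at hP
    obtain ⟨⟨p1, p2, p3⟩, p4, p5⟩ := hP
    rw [abs_mul, Nat.abs_cast]
    apply mul_le_mul_of_nonneg_left _ (Nat.cast_nonneg _)
    have h2 := locP_bound h6 p2 A B (j := m / P.natDegree) (Nat.div_pos p3 p2.natDegree_pos)
    rw [← pow_mul, Nat.mul_div_cancel' p4] at h2
    exact h2
  have h2 : ∑ P ∈ (Irr k m).filter (fun P => P.natDegree ∣ m ∧ P.natDegree ≠ m),
        (P.natDegree : ℝ) * (2 * √(Nat.card k) ^ m) ≤
      ∑ P ∈ Irr k (m / 2), (P.natDegree : ℝ) * (2 * √(Nat.card k) ^ m) := by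
    apply sum_le_sum_of_subset_of_nonneg
    · intro P hP
      rw [mem_filter, mem_Irr] at hP
      obtain ⟨⟨p1, p2, p3⟩, p4, p5⟩ := hP
      rw [mem_Irr]
      refine ⟨p1, p2, ?_⟩
      obtain ⟨c, hc⟩ := p4
      have hc2 : 2 ≤ c := by
        rcases c with _ | _ | c
        · omega
        · omega
        · omega
      rw [Nat.le_div_iff_mul_le (by norm_num)]
      calc P.natDegree * 2 ≤ P.natDegree * c := Nat.mul_le_mul_left _ hc2
        _ = m := hc.symm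
    · intro P _ _
      positivity
  have h3 : ∑ P ∈ Irr k (m / 2), (P.natDegree : ℝ) * (2 * √(Nat.card k) ^ m) ≤
      (2 * √(Nat.card k) ^ m) * ∑ e ∈ Icc 1 (m / 2), (Nat.card k : ℝ) ^ e := by
    rw [sum_Irr, mul_sum]
    refine sum_le_sum fun e he => ?_
    rw [sum_congr rfl fun P hP => by rw [(mem_Pd.1 hP).2.2], sum_const, nsmul_eq_mul]
    have := card_Pd_real (k := k) e
    calc ((Pd k e).card : ℝ) * ((e : ℝ) * (2 * √(Nat.card k) ^ m)) =
          (2 * √(Nat.card k) ^ m) * ((Pd k e).card * e) := by ring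
      _ ≤ _ := mul_le_mul_of_nonneg_left this (by positivity)
  have h4 : (Nat.card k : ℝ) ^ (m / 2) ≤ √(Nat.card k) ^ m := by
    rw [← sq_pow, ← pow_mul]
    exact pow_le_pow_right₀ sqrt_one (Nat.div_mul_le_self m 2)
  calc |∑ P ∈ (Irr k m).filter (fun P => P.natDegree ∣ m ∧ P.natDegree ≠ m),
      (P.natDegree : ℝ) * (locP A B P (m / P.natDegree) : ℝ)| ≤
        (2 * √(Nat.card k) ^ m) * ∑ e ∈ Icc 1 (m / 2), (Nat.card k : ℝ) ^ e :=
        (h1.trans h2).trans h3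
    _ ≤ (2 * √(Nat.card k) ^ m) * (2 * √(Nat.card k) ^ m) := by
        apply mul_le_mul_of_nonneg_left _ (by positivity)
        exact (geom _).trans (mul_le_mul_of_nonneg_left h4 (by norm_num))
    _ = 4 * (Nat.card k : ℝ) ^ m := by
        rw [← sq_pow]
        ring

/-- the power sum as a finite sum -/
theorem psum_eq (d : ℕ) (A B : k[X]) {m : ℕ} (hm : 0 < m) :
    (psum d A B m : ℝ) = locI (A.coeff (4 * d)) (B.coeff (6 * d)) m +
      (∑ P ∈ Pd k m, (m : ℝ) * (trP A B P : ℝ) +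
      ∑ P ∈ (Irr k m).filter (fun P => P.natDegree ∣ m ∧ P.natDegree ≠ m),
      (P.natDegree : ℝ) * (locP A B P (m / P.natDegree) : ℝ)) := by
  classical
  unfold psum
  rw [finsum_eq_sum_of_support_subset (s := Irr k m)]
  · push_cast
    congr 1
    have h1 : ∀ P ∈ Irr k m, ((if P.Monic ∧ Irreducible P ∧ P.natDegree ∣ m then
        (P.natDegree : ℤ) * locP A B P (m / P.natDegree) else 0 : ℤ) : ℝ) =
        (if P.natDegree = m then (m : ℝ) * (trP A B P : ℝ) else 0) +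
        (if P.natDegree ∣ m ∧ P.natDegree ≠ m then
          (P.natDegree : ℝ) * (locP A B P (m / P.natDegree) : ℝ) else 0) := by
      intro P hP
      rw [mem_Irr] at hP
      obtain ⟨p1, p2, p3⟩ := hP
      by_cases h : P.natDegree = m
      · rw [if_pos ⟨p1, p2, by rw [h]⟩, if_pos h, if_neg (by tauto), add_zero]
        push_cast
        rw [h, Nat.div_self hm]
        congr 1
        unfold locP trP
        rw [fp_one]
      · rw [if_neg h, zero_add]
        by_cases h' : P.natDegree ∣ m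
        · rw [if_pos ⟨p1, p2, h'⟩, if_pos ⟨h', h⟩]
          push_cast
          rfl
        · rw [if_neg (by tauto), if_neg (by tauto)]
          simp
    push_cast at h1
    rw [sum_congr rfl h1, sum_add_distrib, ← sum_filter, ← sum_filter]
    rfl
  · intro P hP
    rw [Function.mem_support] at hP
    by_contra h
    apply hP
    rw [if_neg]
    rintro ⟨p1, p2, p3⟩
    apply h
    rw [mem_coe, mem_Irr]
    exact ⟨p1, p2, Nat.le_of_dvd hm p3⟩

open Classical in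
/-- **the bound for the order** -/
theorem det (h6 : (6 : k) ≠ 0) {Y : ℕ} (hY : 0 < Y) {d : ℕ} {A B : k[X]} {N : ℕ} {β : Fin N → ℂ}
    (hβ : ∀ i, ‖β i‖ = 1)
    (hps : ∀ m : ℕ, 0 < m → (psum d A B m : ℂ) = -((Nat.card k : ℂ) ^ m * ∑ i, β i ^ m)) :
    ((univ.filter fun i => β i = 1).card : ℝ) ≤
      N / Y + 12 + ∑ P ∈ Irr k (Y - 1), wt k Y P * trP A B P := by
  have hY' : (0 : ℝ) < Y := by exact_mod_cast hY
  have hq := q_pos (k := k)
  have h1 := fejer_bound hβ Y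
  have h2 : ∀ m ∈ Ico 1 Y, ((Y : ℝ) - m) * (∑ i, β i ^ m).re ≤
      6 * Y - ((Y : ℝ) - m) * ∑ P ∈ Pd k m, (m : ℝ) * (trP A B P : ℝ) / (Nat.card k : ℝ) ^ m := by
    intro m hm
    rw [mem_Ico] at hm
    have hm0 : 0 < m := hm.1
    have hYm : (0 : ℝ) ≤ (Y : ℝ) - m := by
      have : (m : ℝ) ≤ Y := by exact_mod_cast hm.2.le
      linarith
    have hYm' : (Y : ℝ) - m ≤ Y := by
      have : (0 : ℝ) ≤ m := Nat.cast_nonneg _
      linarith
    have h3 : (∑ i, β i ^ m).re = -(psum d A B m : ℝ) / (Nat.card k : ℝ) ^ m := by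
      have h4 : ∑ i, β i ^ m = ((-(psum d A B m : ℝ) / (Nat.card k : ℝ) ^ m : ℝ) : ℂ) := by
        push_cast
        rw [hps m hm0, neg_neg, mul_div_cancel_left₀]
        exact pow_ne_zero _ (by exact_mod_cast hq.ne')
      rw [h4, Complex.ofReal_re]
    have h5 := rest_bound h6 A B hm0
    have h7 := locI_bound h6 (A.coeff (4 * d)) (B.coeff (6 * d)) hm0
    have h8 : √(Nat.card k : ℝ) ^ m ≤ (Nat.card k : ℝ) ^ m := by
      rw [← sq_pow]
      nlinarith [one_le_pow₀ (sqrt_one (k := k)) (n := m)]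
    have h9 : (∑ i, β i ^ m).re ≤
        6 - ∑ P ∈ Pd k m, (m : ℝ) * (trP A B P : ℝ) / (Nat.card k : ℝ) ^ m := by
      rw [h3, psum_eq d A B hm0, ← sum_div, div_le_iff₀ (pow_pos hq m), sub_mul,
        div_mul_cancel₀ _ (pow_pos hq m).ne']
      have h10 := (abs_le.1 h5).1
      have h11 := (abs_le.1 h7).1
      linarith
    calc ((Y : ℝ) - m) * (∑ i, β i ^ m).re ≤ ((Y : ℝ) - m) *
          (6 - ∑ P ∈ Pd k m, (m : ℝ) * (trP A B P : ℝ) / (Nat.card k : ℝ) ^ m) :=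
          mul_le_mul_of_nonneg_left h9 hYm
      _ = ((Y : ℝ) - m) * 6 - ((Y : ℝ) - m) *
          ∑ P ∈ Pd k m, (m : ℝ) * (trP A B P : ℝ) / (Nat.card k : ℝ) ^ m := by ring
      _ ≤ _ := by linarith
  have h3 := sum_le_sum h2
  rw [sum_sub_distrib, sum_const, Nat.card_Ico, nsmul_eq_mul] at h3
  have h4 : ∑ P ∈ Irr k (Y - 1), wt k Y P * (trP A B P : ℝ) =
      -(2 / (Y : ℝ) ^ 2 * ∑ m ∈ Ico 1 Y, ((Y : ℝ) - m) *
        ∑ P ∈ Pd k m, (m : ℝ) * (trP A B P : ℝ) / (Nat.card k : ℝ) ^ m) := by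
    rw [sum_Irr, mul_sum, ← sum_neg_distrib]
    have e : Icc 1 (Y - 1) = Ico 1 Y := by
      ext x
      simp only [mem_Icc, mem_Ico]
      omega
    rw [e]
    refine sum_congr rfl fun m _ => ?_
    rw [mul_sum, mul_sum, ← sum_neg_distrib]
    refine sum_congr rfl fun P hP => ?_
    unfold wt
    rw [(mem_Pd.1 hP).2.2]
    ring
  have h5 : ((Y - 1 : ℕ) : ℝ) * (6 * Y) ≤ 6 * Y ^ 2 := by
    have : ((Y - 1 : ℕ) : ℝ) ≤ Y := by exact_mod_cast Nat.sub_le _ _
    nlinarith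
  rw [h4]
  have h6' : ((univ.filter fun i => β i = 1).card : ℝ) * Y ^ 2 ≤ Y * N + 12 * Y ^ 2 -
      2 * ∑ m ∈ Ico 1 Y, ((Y : ℝ) - m) *
        ∑ P ∈ Pd k m, (m : ℝ) * (trP A B P : ℝ) / (Nat.card k : ℝ) ^ m := by
    linarith
  have h7 : ((univ.filter fun i => β i = 1).card : ℝ) ≤ (Y * N + 12 * Y ^ 2 -
      2 * ∑ m ∈ Ico 1 Y, ((Y : ℝ) - m) *
        ∑ P ∈ Pd k m, (m : ℝ) * (trP A B P : ℝ) / (Nat.card k : ℝ) ^ m) / Y ^ 2 := by
    rw [le_div_iff₀ (by positivity)]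
    exact h6'
  refine h7.trans (le_of_eq ?_)
  field_simp
  ring

end Pool.Agent.TH180.RT
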