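import Pool.Agent.TH180.RT.Det

/-!
The number of curves of large order of vanishing.
-/

set_option autoImplicit false
set_option linter.all false
set_option maxHeartbeats 1000000

open Polynomial Finset

namespace Pool.Agent.TH180.RT

open Pool.Agent.H341R2.Sharp (Irr mem_Irr)

variable {k : Type} [Field k] [Fintype k] [DecidableEq k]

open Classical in
/-- the normalised eigenvalues of Frobenius, at least `R` of which are one -/
def Big {k : Type} [Field k] (d R : ℕ) (A B : k[X]) : Prop :=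
  ∃ (N : ℕ) (β : Fin N → ℂ), N ≤ 12 * d ∧ (∀ i, ‖β i‖ = 1) ∧
    (∀ m : ℕ, 0 < m → (psum d A B m : ℂ) = -((Nat.card k : ℂ) ^ m * ∑ i, β i ^ m)) ∧
    R ≤ (univ.filter fun i => β i = 1).card

theorem numeric {R m : ℕ} (hm : 0 < m) (hR : 18 * m ≤ R) :
    2 * ((2 * m).factorial : ℝ) * (Real.exp 1 * 8 / (2 * m)) ^ m ≤
      (44 / (R : ℝ)) ^ m * ((R : ℝ) / 3) ^ (2 * m) := by
  have hm' : (1 : ℝ) ≤ m := by exact_mod_cast hm
  have hm0 : (0 : ℝ) < m := by linarith
  have hR' : 18 * (m : ℝ) ≤ R := by exact_mod_cast hR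
  have hR0 : (0 : ℝ) < R := by linarith
  have h1 : ((2 * m).factorial : ℝ) ≤ (2 * m : ℝ) ^ (2 * m) := by
    exact_mod_cast Nat.factorial_le_pow (2 * m)
  have he := Real.exp_one_lt_d9
  have he0 := Real.exp_pos 1
  have h2 : (2 : ℝ) ≤ 2 ^ m := by
    calc (2 : ℝ) = 2 ^ 1 := by norm_num
      _ ≤ 2 ^ m := pow_le_pow_right₀ (by norm_num) hm
  calc 2 * ((2 * m).factorial : ℝ) * (Real.exp 1 * 8 / (2 * m)) ^ m ≤
        2 ^ m * (2 * m : ℝ) ^ (2 * m) * (Real.exp 1 * 8 / (2 * m)) ^ m := by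
        gcongr
    _ = (32 * Real.exp 1 * m) ^ m := by
        rw [pow_mul, ← mul_pow, ← mul_pow]
        congr 1
        field_simp
        ring
    _ ≤ (44 / (R : ℝ) * ((R : ℝ) / 3) ^ 2) ^ m := by
        apply pow_le_pow_left₀ (by positivity)
        have e : 44 / (R : ℝ) * ((R : ℝ) / 3) ^ 2 = 44 / 9 * R := by
          field_simp
          norm_num
        rw [e]
        nlinarith
    _ = _ := by rw [mul_pow, ← pow_mul]

open Classical in
/-- **the tail** -/
theorem tail (h6 : (6 : k) ≠ 0) (d R : ℕ) (hR : 0 < R) :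
    ((univ.filter fun ω : Om k (4 * d + 1) (6 * d + 1) => Big d R ω.1.1 ω.2.1).card : ℝ) ≤
      (44 / (R : ℝ)) ^ (R / 18) * (Nat.card k : ℝ) ^ (10 * d + 2) := by
  have hq := q_pos (k := k)
  have hcard : ((univ.filter fun ω : Om k (4 * d + 1) (6 * d + 1) =>
      Big d R ω.1.1 ω.2.1).card : ℝ) ≤ (Nat.card k : ℝ) ^ (10 * d + 2) := by
    have h1 := card_le_univ (univ.filter fun ω : Om k (4 * d + 1) (6 * d + 1) =>
      Big d R ω.1.1 ω.2.1)
    rw [Fintype.card_prod, card_LT, card_LT, ← pow_add,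
      show 4 * d + 1 + (6 * d + 1) = 10 * d + 2 by ring, ← Nat.card_eq_fintype_card] at h1
    exact_mod_cast h1
  by_cases hsmall : R < 36
  · refine hcard.trans ?_
    have h1 : (1 : ℝ) ≤ (44 / (R : ℝ)) ^ (R / 18) := by
      apply one_le_pow₀
      rw [one_le_div (by exact_mod_cast hR)]
      have : (R : ℝ) < 36 := by exact_mod_cast hsmall
      linarith
    calc (Nat.card k : ℝ) ^ (10 * d + 2) = 1 * (Nat.card k : ℝ) ^ (10 * d + 2) := (one_mul _).symm
      _ ≤ _ := mul_le_mul_of_nonneg_right h1 (by positivity)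
  push Not at hsmall
  have hR' : (36 : ℝ) ≤ R := by exact_mod_cast hsmall
  by_cases hbig : 12 * d < R
  · have h0 : (univ.filter fun ω : Om k (4 * d + 1) (6 * d + 1) => Big d R ω.1.1 ω.2.1) = ∅ := by
      rw [filter_eq_empty_iff]
      rintro ω - ⟨N, β, hN, -, -, h⟩
      have h1 : (univ.filter fun i => β i = 1).card ≤ N := by
        simpa using card_le_univ (univ.filter fun i => β i = 1)
      omega
    rw [h0]
    simp only [card_empty, Nat.cast_zero]
    positivity
  push Not at hbig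
  have hd : 0 < d := by omega
  set m : ℕ := R / 18 with hm
  have hm1 : 18 * m ≤ R := Nat.mul_div_le R 18
  have hm0 : 0 < m := Nat.div_pos (by omega) (by norm_num)
  set Y : ℕ := (36 * d + R - 1) / R with hY
  have hY0 : 0 < Y := Nat.div_pos (by omega) hR
  have hY1 : 36 * d ≤ Y * R := by
    have h1 : 36 * d + R - 1 < (Y + 1) * R := by
      rw [hY, mul_comm ((36 * d + R - 1) / R + 1) R]
      exact Nat.lt_mul_div_succ _ hR
    have e : (Y + 1) * R = Y * R + R := by ring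
    rw [e] at h1
    omega
  have hY2 : (Y - 1) * R ≤ 36 * d := by
    have h1 : Y * R ≤ 36 * d + R - 1 := Nat.div_mul_le_self _ _
    rw [Nat.sub_mul, one_mul]
    omega
  have hY3 : 2 * m * (Y - 1) ≤ 4 * d := by
    have h1 : 18 * (2 * m * (Y - 1)) ≤ 18 * (4 * d) := by
      calc 18 * (2 * m * (Y - 1)) = 2 * ((Y - 1) * (18 * m)) := by ring
        _ ≤ 2 * ((Y - 1) * R) := by gcongr
        _ ≤ 2 * (36 * d) := by gcongr
        _ = 18 * (4 * d) := by ring
    omega
  have hmom := moment_tr h6 (Irr k (Y - 1)) (Y := Y - 1) (m := m) (D₁ := 4 * d + 1)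
    (D₂ := 6 * d + 1) (fun P hP => mem_Irr.1 hP) hm0 (by omega) (by omega) (wt k Y)
    (V := 8) (by norm_num) (fun A B => var_bound h6 hY0 A B)
  have hYR : (0 : ℝ) < Y := by exact_mod_cast hY0
  have hNY : ∀ N : ℕ, N ≤ 12 * d → (N : ℝ) / Y ≤ R / 3 := by
    intro N hN
    rw [div_le_div_iff₀ hYR (by norm_num)]
    have h1 : N * 3 ≤ R * Y := by
      calc N * 3 ≤ 12 * d * 3 := by gcongr
        _ = 36 * d := by ring
        _ ≤ Y * R := hY1
        _ = R * Y := mul_comm _ _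
    exact_mod_cast h1
  have hmark : ((univ.filter fun ω : Om k (4 * d + 1) (6 * d + 1) =>
      Big d R ω.1.1 ω.2.1).card : ℝ) * ((R : ℝ) / 3) ^ (2 * m) ≤
      ∑ ω : Om k (4 * d + 1) (6 * d + 1),
        (∑ P ∈ Irr k (Y - 1), wt k Y P * trP ω.1.1 ω.2.1 P) ^ (2 * m) := by
    rw [← nsmul_eq_mul, ← sum_const]
    refine (sum_le_sum fun ω hω => ?_).trans (sum_le_sum_of_subset_of_nonneg
      (filter_subset _ _) fun ω _ _ => ?_)
    · rw [mem_filter] at hω
      obtain ⟨N, β, hN, hβ, hps, hc⟩ := hω.2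
      have h1 := det h6 hY0 hβ hps
      have h2 := hNY N hN
      have h3 : (R : ℝ) ≤ ((univ.filter fun i => β i = 1).card : ℝ) := by exact_mod_cast hc
      apply pow_le_pow_left₀ (by positivity)
      linarith
    · rw [pow_mul]
      positivity
  have hnum := numeric hm0 hm1
  have e1 : (4 * d + 1 + (6 * d + 1)) = 10 * d + 2 := by ring
  rw [e1, ← Nat.card_eq_fintype_card] at hmom
  have h1 := hmark.trans hmom
  have h2 : ((univ.filter fun ω : Om k (4 * d + 1) (6 * d + 1) =>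
      Big d R ω.1.1 ω.2.1).card : ℝ) * ((R : ℝ) / 3) ^ (2 * m) ≤
      ((44 / (R : ℝ)) ^ m * (Nat.card k : ℝ) ^ (10 * d + 2)) * ((R : ℝ) / 3) ^ (2 * m) := by
    refine h1.trans ?_
    calc (Nat.card k : ℝ) ^ (10 * d + 2) *
          (2 * ((2 * m).factorial : ℝ) * (Real.exp 1 * 8 / (2 * m)) ^ m) ≤
          (Nat.card k : ℝ) ^ (10 * d + 2) * ((44 / (R : ℝ)) ^ m * ((R : ℝ) / 3) ^ (2 * m)) :=
          mul_le_mul_of_nonneg_left hnum (by positivity)
      _ = _ := by ring
  exact le_of_mul_le_mul_right h2 (by positivity)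

end Pool.Agent.TH180.RT
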