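import Mathlib

/-!
Moments of sums with a sign symmetry.
-/

set_option autoImplicit false
set_option linter.all false
set_option maxHeartbeats 1000000

open Finset

namespace Pool.Agent.TH180.RT

/-- the sign -/
def sg (b : Bool) : ℝ := if b then 1 else -1

theorem pow_le_exp (x : ℝ) (k : ℕ) :
    x ^ (2 * k) ≤ (2 * k).factorial * (Real.exp x + Real.exp (-x)) := by
  have h1 : |x| ^ (2 * k) / (2 * k).factorial ≤ Real.exp |x| :=
    Real.pow_div_factorial_le_exp _ (abs_nonneg x) _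
  have h2 : Real.exp |x| ≤ Real.exp x + Real.exp (-x) := by
    rcases le_total 0 x with h | h
    · rw [abs_of_nonneg h]
      linarith [Real.exp_pos (-x)]
    · rw [abs_of_nonpos h]
      linarith [Real.exp_pos x]
  have h3 : (0 : ℝ) < (2 * k).factorial := by exact_mod_cast Nat.factorial_pos _
  rw [div_le_iff₀ h3] at h1
  have h4 : |x| ^ (2 * k) = x ^ (2 * k) := by
    rw [pow_mul, pow_mul, sq_abs]
  rw [h4] at h1
  calc x ^ (2 * k) ≤ Real.exp |x| * (2 * k).factorial := h1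
    _ ≤ (Real.exp x + Real.exp (-x)) * (2 * k).factorial :=
        mul_le_mul_of_nonneg_right h2 h3.le
    _ = _ := mul_comm _ _

theorem sum_exp {ι : Type} [Fintype ι] [DecidableEq ι] (c : ι → ℝ) :
    ∑ ε : ι → Bool, Real.exp (∑ i, sg (ε i) * c i) ≤
      2 ^ Fintype.card ι * Real.exp ((∑ i, c i ^ 2) / 2) := by
  have h1 : ∑ ε : ι → Bool, Real.exp (∑ i, sg (ε i) * c i) =
      ∏ i, ∑ b : Bool, Real.exp (sg b * c i) := by
    rw [Finset.prod_univ_sum, Fintype.piFinset_univ]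
    refine sum_congr rfl fun ε _ => ?_
    rw [Real.exp_sum]
  have h2 : ∀ i, ∑ b : Bool, Real.exp (sg b * c i) ≤ 2 * Real.exp (c i ^ 2 / 2) := by
    intro i
    have h3 := Real.cosh_le_exp_half_sq (c i)
    rw [Real.cosh_eq] at h3
    rw [Fintype.sum_bool]
    unfold sg
    simp only [if_true, Bool.false_eq_true, if_false, one_mul, neg_mul]
    linarith
  rw [h1]
  calc ∏ i, ∑ b : Bool, Real.exp (sg b * c i) ≤ ∏ i, (2 * Real.exp (c i ^ 2 / 2)) :=
        prod_le_prod (fun i _ => sum_nonneg fun b _ => (Real.exp_pos _).le) fun i _ => h2 i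
    _ = 2 ^ Fintype.card ι * Real.exp ((∑ i, c i ^ 2) / 2) := by
        rw [prod_mul_distrib, prod_const, card_univ, ← Real.exp_sum, sum_div]

theorem khin {ι : Type} [Fintype ι] [DecidableEq ι] (c : ι → ℝ) {V : ℝ} (hV : 0 < V)
    (hc : ∑ i, c i ^ 2 ≤ V) {k : ℕ} (hk : 0 < k) :
    ∑ ε : ι → Bool, (∑ i, sg (ε i) * c i) ^ (2 * k) ≤
      2 ^ Fintype.card ι * (2 * (2 * k).factorial * (Real.exp 1 * V / (2 * k)) ^ k) := by
  set s : ℝ := √(2 * k / V) with hs
  have hk' : (0 : ℝ) < k := by exact_mod_cast hk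
  have hq : (0 : ℝ) < 2 * k / V := by positivity
  have hs2 : s ^ 2 = 2 * k / V := Real.sq_sqrt hq.le
  have hF : (0 : ℝ) < (2 * k).factorial := by exact_mod_cast Nat.factorial_pos _
  have h1 : ∀ ε : ι → Bool, s ^ (2 * k) * (∑ i, sg (ε i) * c i) ^ (2 * k) ≤
      (2 * k).factorial * (Real.exp (∑ i, sg (ε i) * (s * c i)) +
        Real.exp (∑ i, sg (ε i) * (-(s * c i)))) := by
    intro ε
    have h := pow_le_exp (∑ i, sg (ε i) * (s * c i)) k
    have e1 : s * ∑ i, sg (ε i) * c i = ∑ i, sg (ε i) * (s * c i) := by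
      rw [mul_sum]
      exact sum_congr rfl fun i _ => by ring
    have e2 : ∑ i, sg (ε i) * (-(s * c i)) = -∑ i, sg (ε i) * (s * c i) := by
      rw [← sum_neg_distrib]
      exact sum_congr rfl fun i _ => by ring
    rw [← mul_pow, e1, e2]
    exact h
  have hexp : Real.exp ((∑ i, (s * c i) ^ 2) / 2) ≤ Real.exp k := by
    apply Real.exp_le_exp.2
    have e1 : ∑ i, (s * c i) ^ 2 = s ^ 2 * ∑ i, c i ^ 2 := by
      rw [mul_sum]
      exact sum_congr rfl fun i _ => by ring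
    rw [e1, hs2]
    have : 2 * (k : ℝ) / V * ∑ i, c i ^ 2 ≤ 2 * k / V * V := mul_le_mul_of_nonneg_left hc hq.le
    rw [div_mul_cancel₀ _ hV.ne'] at this
    linarith
  have h2 : ∑ ε : ι → Bool, Real.exp (∑ i, sg (ε i) * (s * c i)) ≤
      2 ^ Fintype.card ι * Real.exp k :=
    (sum_exp fun i => s * c i).trans (mul_le_mul_of_nonneg_left hexp (by positivity))
  have h3 : ∑ ε : ι → Bool, Real.exp (∑ i, sg (ε i) * (-(s * c i))) ≤
      2 ^ Fintype.card ι * Real.exp k := by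
    refine (sum_exp fun i => -(s * c i)).trans (mul_le_mul_of_nonneg_left ?_ (by positivity))
    simp only [neg_sq]
    exact hexp
  have h4 : s ^ (2 * k) * ∑ ε : ι → Bool, (∑ i, sg (ε i) * c i) ^ (2 * k) ≤
      (2 * k).factorial * (2 * (2 ^ Fintype.card ι * Real.exp k)) := by
    rw [mul_sum]
    refine (sum_le_sum fun ε _ => h1 ε).trans ?_
    rw [← mul_sum, sum_add_distrib]
    apply mul_le_mul_of_nonneg_left _ hF.le
    linarith
  have hs3 : s ^ (2 * k) = (2 * k / V) ^ k := by rw [pow_mul, hs2]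
  rw [hs3] at h4
  have h5 : 0 < (2 * (k : ℝ) / V) ^ k := by positivity
  have h6 : ∑ ε : ι → Bool, (∑ i, sg (ε i) * c i) ^ (2 * k) ≤
      (2 * k).factorial * (2 * (2 ^ Fintype.card ι * Real.exp k)) / (2 * k / V) ^ k := by
    rw [le_div_iff₀ h5, mul_comm]
    exact h4
  refine h6.trans (le_of_eq ?_)
  have e : Real.exp k = Real.exp 1 ^ k := by
    rw [← Real.exp_nat_mul, mul_one]
  rw [e, div_pow, div_pow, mul_pow]
  field_simp
  exact (mul_pow _ _ _).symm

/-- the moment bound -/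
theorem moment {Ω ι : Type} [Fintype Ω] [Fintype ι] [DecidableEq ι] (f : ι → Ω → ℝ) {V : ℝ}
    (hV : 0 < V) (hf : ∀ ω, ∑ i, f i ω ^ 2 ≤ V) {k : ℕ} (hk : 0 < k)
    (hsym : ∀ ε : ι → Bool, ∑ ω, (∑ i, sg (ε i) * f i ω) ^ (2 * k) =
      ∑ ω, (∑ i, f i ω) ^ (2 * k)) :
    ∑ ω, (∑ i, f i ω) ^ (2 * k) ≤
      Fintype.card Ω * (2 * (2 * k).factorial * (Real.exp 1 * V / (2 * k)) ^ k) := by
  have h1 : ∑ ε : ι → Bool, ∑ ω, (∑ i, sg (ε i) * f i ω) ^ (2 * k) =
      2 ^ Fintype.card ι * ∑ ω, (∑ i, f i ω) ^ (2 * k) := by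
    rw [sum_congr rfl fun ε _ => hsym ε, sum_const, card_univ, nsmul_eq_mul]
    simp
  have h2 : ∑ ε : ι → Bool, ∑ ω, (∑ i, sg (ε i) * f i ω) ^ (2 * k) ≤
      Fintype.card Ω * (2 ^ Fintype.card ι *
        (2 * (2 * k).factorial * (Real.exp 1 * V / (2 * k)) ^ k)) := by
    rw [sum_comm]
    refine (sum_le_sum fun ω _ => khin (fun i => f i ω) hV (hf ω) hk).trans ?_
    rw [sum_const, card_univ, nsmul_eq_mul]
  rw [h1] at h2
  have h3 : (0 : ℝ) < 2 ^ Fintype.card ι := by positivity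
  have h4 : 2 ^ Fintype.card ι * ∑ ω, (∑ i, f i ω) ^ (2 * k) ≤ 2 ^ Fintype.card ι *
      (Fintype.card Ω * (2 * (2 * k).factorial * (Real.exp 1 * V / (2 * k)) ^ k)) := by
    linarith
  exact le_of_mul_le_mul_left h4 h3

end Pool.Agent.TH180.RT
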