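import Pool.Agent.H341R2.NF.ECCount

/-!
Traces of Frobenius of `y ^ 2 = x ^ 3 + A x + B` over finite fields, and their power sums.
-/

set_option autoImplicit false
set_option linter.all false
set_option maxHeartbeats 1000000

open Polynomial Finset

namespace Pool.Agent.TH180.RT

open Pool.Agent.H341R2.EC

/-- number of affine points -/
noncomputable def pts (R : Type) [CommRing R] (A B : R) : ℕ :=
  Nat.card {z : R × R // z.2 ^ 2 = z.1 ^ 3 + A * z.1 + B}

section field

variable {F : Type} [Field F] [Fintype F] [DecidableEq F]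

theorem n2 (h6 : (6 : F) ≠ 0) : (2 : F) ≠ 0 := by
  intro h; apply h6
  have : (6 : F) = 3 * 2 := by norm_num
  rw [this, h, mul_zero]

theorem n3 (h6 : (6 : F) ≠ 0) : (3 : F) ≠ 0 := by
  intro h; apply h6
  have : (6 : F) = 2 * 3 := by norm_num
  rw [this, h, mul_zero]

theorem rc (h6 : (6 : F) ≠ 0) : ringChar F ≠ 2 := by
  intro h
  apply n2 h6
  have := ringChar.Nat.cast_ringChar (R := F)
  rw [h] at this
  exact_mod_cast this

theorem pts_eq (h6 : (6 : F) ≠ 0) (A B : F) :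
    (pts F A B : ℤ) = Fintype.card F + csum (-A / 27) (-B / 54) := by
  have h27 : (27 : F) ≠ 0 := by
    have : (27 : F) = 3 ^ 3 := by norm_num
    rw [this]; exact pow_ne_zero _ (n3 h6)
  have h54 : (54 : F) ≠ 0 := by
    have : (54 : F) = 2 * 27 := by norm_num
    rw [this]; exact mul_ne_zero (n2 h6) h27
  have e1 : -27 * (-A / 27) = A := by
    field_simp
  have e2 : -54 * (-B / 54) = B := by
    field_simp
  have hpts : pts F A B = short (-A / 27) (-B / 54) := by
    unfold short pts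
    refine Nat.card_congr (Equiv.subtypeEquivRight fun P => ?_)
    have e3 : P.1 ^ 3 + A * P.1 + B = P.1 ^ 3 - 27 * (-A / 27) * P.1 - 54 * (-B / 54) := by
      conv_lhs => rw [← e1, ← e2]
      ring
    rw [e3]
  rw [hpts, short_eq h6]
  rfl

/-- the trace -/
noncomputable def tr (A B : F) : ℤ := (Fintype.card F : ℤ) - pts F A B

theorem tr_eq (h6 : (6 : F) ≠ 0) (A B : F) : tr A B = - csum (-A / 27) (-B / 54) := by
  unfold tr
  rw [pts_eq h6]
  ring

theorem tr_twist (h6 : (6 : F) ≠ 0) {d : F} (hd : d ≠ 0) (A B : F) :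
    tr (d ^ 2 * A) (d ^ 3 * B) = quadraticChar F d * tr A B := by
  rw [tr_eq h6, tr_eq h6]
  have e1 : -(d ^ 2 * A) / 27 = d ^ 2 * (-A / 27) := by ring
  have e2 : -(d ^ 3 * B) / 54 = d ^ 3 * (-B / 54) := by ring
  rw [e1, e2, csum_twist hd]
  ring

theorem csum_sing (h6 : (6 : F) ≠ 0) {c c' : F} (h : c ^ 3 = c' ^ 2) : |csum c c'| ≤ 1 := by
  obtain ⟨e, he1, he2⟩ : ∃ e : F, c = e ^ 2 ∧ c' = e ^ 3 := by
    by_cases hc : c = 0
    · refine ⟨0, by simp [hc], ?_⟩
      rw [hc] at h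
      have : c' ^ 2 = 0 := by rw [← h]; ring
      simpa using this
    · refine ⟨c' / c, ?_, ?_⟩
      · field_simp
        rw [← h]
      · field_simp
        calc c' * c ^ 3 = c' * c' ^ 2 := by rw [h]
          _ = c' ^ 3 := by ring
  have h1 : csum c c' = ∑ x : F, (quadraticChar F (x - 6 * e) -
      if x = -(3 * e) then quadraticChar F (x - 6 * e) else 0) := by
    unfold csum
    refine sum_congr rfl fun x _ => ?_
    have e1 : (cub c c').eval x = (x + 3 * e) ^ 2 * (x - 6 * e) := by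
      rw [cub_eval, he1, he2]
      ring
    rw [e1, map_mul]
    by_cases hx : x = -(3 * e)
    · rw [if_pos hx]
      have : x + 3 * e = 0 := by rw [hx]; ring
      rw [this]
      simp
    · rw [if_neg hx]
      have : x + 3 * e ≠ 0 := fun h => hx (by linear_combination h)
      rw [quadraticChar_sq_one' this]
      ring
  have h2 : ∑ x : F, quadraticChar F (x - 6 * e) = 0 := by
    have h3 := Equiv.sum_comp (Equiv.subRight (6 * e)) (fun y => quadraticChar F y)
    rw [quadraticChar_sum_zero (rc h6)] at h3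
    exact h3
  rw [h1, sum_sub_distrib, h2, sum_ite_eq' univ, if_pos (mem_univ _), zero_sub, abs_neg]
  have h3 := quadraticChar_isQuadratic F (-(3 * e) - 6 * e)
  rcases h3 with h | h | h <;> rw [h] <;> norm_num

theorem tr_sing (h6 : (6 : F) ≠ 0) {A B : F} (h : 4 * A ^ 3 + 27 * B ^ 2 = 0) : |tr A B| ≤ 1 := by
  rw [tr_eq h6, abs_neg]
  apply csum_sing h6
  have h27 : (27 : F) ≠ 0 := by
    have : (27 : F) = 3 ^ 3 := by norm_num
    rw [this]; exact pow_ne_zero _ (n3 h6)
  have h54 : (54 : F) ≠ 0 := by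
    have : (54 : F) = 2 * 27 := by norm_num
    rw [this]; exact mul_ne_zero (n2 h6) h27
  have h4 : (4 : F) ≠ 0 := by
    have : (4 : F) = 2 * 2 := by norm_num
    rw [this]; exact mul_ne_zero (n2 h6) (n2 h6)
  have h3 : (27 : F) ^ 3 * 4 = 54 ^ 2 * 27 := by norm_num
  rw [div_pow, div_pow, div_eq_div_iff (pow_ne_zero _ h27) (pow_ne_zero _ h54)]
  have h5 : (27 : F) * ((-A) ^ 3 * 54 ^ 2 - (-B) ^ 2 * 27 ^ 3) = 0 := by
    have : (27 : F) * ((-A) ^ 3 * 54 ^ 2 - (-B) ^ 2 * 27 ^ 3) =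
      -(27 ^ 3 * (4 * A ^ 3 + 27 * B ^ 2)) := by ring
    rw [this, h]
    ring
  rcases mul_eq_zero.1 h5 with h6 | h6
  · exact absurd h6 h27
  · exact sub_eq_zero.1 h6

theorem tr_bound (h6 : (6 : F) ≠ 0) (A B : F) : |(tr A B : ℝ)| ≤ 2 * √(Fintype.card F) := by
  by_cases h : 4 * A ^ 3 + 27 * B ^ 2 = 0
  · have h1 := tr_sing h6 h
    have h2 : |(tr A B : ℝ)| ≤ 1 := by exact_mod_cast h1
    have h3 : (1 : ℝ) ≤ √(Fintype.card F) := by
      rw [Real.one_le_sqrt]
      exact_mod_cast Fintype.card_pos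
    linarith
  · rw [tr_eq h6]
    push_cast
    rw [abs_neg]
    apply csum_bound h6
    intro h0
    apply h
    have h27 : (27 : F) ≠ 0 := by
      have : (27 : F) = 3 ^ 3 := by norm_num
      rw [this]; exact pow_ne_zero _ (n3 h6)
    have h54 : (54 : F) ≠ 0 := by
      have : (54 : F) = 2 * 27 := by norm_num
      rw [this]; exact mul_ne_zero (n2 h6) h27
    have e1 : -27 * (-A / 27) = A := by field_simp
    have e2 : -54 * (-B / 54) = B := by field_simp
    rw [← e1, ← e2]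
    linear_combination (-78732) * h0

end field

section pow

/-- the trace of the `j`-th power of a matrix with trace `a` and determinant `c` -/
def fp (a c : ℤ) (j : ℕ) : ℤ := ((!![a, -c; 1, 0] : Matrix (Fin 2) (Fin 2) ℤ) ^ j).trace

theorem fp_zero (a c : ℤ) : fp a c 0 = 2 := by
  simp [fp, Matrix.trace_fin_two]

theorem fp_one (a c : ℤ) : fp a c 1 = a := by
  simp [fp, Matrix.trace_fin_two]

theorem fp_rec (a c : ℤ) (j : ℕ) : fp a c (j + 2) = a * fp a c (j + 1) - c * fp a c j := by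
  unfold fp
  set M : Matrix (Fin 2) (Fin 2) ℤ := !![a, -c; 1, 0] with hM
  have h : M ^ 2 = a • M - c • 1 := by
    rw [hM, pow_two]
    ext i j
    rw [Matrix.sub_apply, Matrix.smul_apply, Matrix.smul_apply, Matrix.mul_apply, Fin.sum_univ_two]
    fin_cases i <;> fin_cases j <;> simp <;> ring
  have e : M ^ (j + 2) = a • M ^ (j + 1) - c • M ^ j := by
    rw [pow_add, h, mul_sub, mul_smul_comm, mul_smul_comm, mul_one, ← pow_succ]
  rw [e, Matrix.trace_sub, Matrix.trace_smul, Matrix.trace_smul, smul_eq_mul, smul_eq_mul]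

theorem fp_bad (a : ℤ) (j : ℕ) (hj : 0 < j) : fp a 0 j = a ^ j := by
  obtain ⟨i, rfl⟩ := Nat.exists_eq_succ_of_ne_zero hj.ne'
  induction i with
  | zero => rw [Nat.succ_eq_add_one, zero_add, fp_one, pow_one]
  | succ i ih =>
    have := fp_rec a 0 i
    rw [Nat.succ_eq_add_one, this, ih (Nat.succ_pos _), zero_mul, sub_zero, ← pow_succ']

theorem fp_cos {a c : ℤ} {r θ : ℝ} (hc : (c : ℝ) = r ^ 2) (ha : (a : ℝ) = 2 * r * Real.cos θ)
    (j : ℕ) : (fp a c j : ℝ) = 2 * r ^ j * Real.cos (j * θ) ∧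
      (fp a c (j + 1) : ℝ) = 2 * r ^ (j + 1) * Real.cos ((j + 1 : ℕ) * θ) := by
  induction j with
  | zero =>
    rw [fp_zero, fp_one]
    constructor
    · simp
    · simp [ha]
  | succ j ih =>
    refine ⟨ih.2, ?_⟩
    rw [show j + 1 + 1 = j + 2 from rfl, fp_rec]
    push_cast
    have h2 := ih.2
    push_cast at h2
    rw [h2, ih.1, hc, ha]
    have e1 : ((j : ℝ) + 2) * θ = (j + 1) * θ + θ := by ring
    have e2 : (j : ℝ) * θ = (j + 1) * θ - θ := by ring
    rw [e1, e2, Real.cos_add, Real.cos_sub]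
    ring

theorem fp_bound {a c : ℤ} {r : ℝ} (hr : 0 < r) (hc : (c : ℝ) = r ^ 2) (ha : |(a : ℝ)| ≤ 2 * r)
    (j : ℕ) : |(fp a c j : ℝ)| ≤ 2 * r ^ j := by
  have h1 : -1 ≤ (a : ℝ) / (2 * r) := by
    rw [le_div_iff₀ (by positivity)]
    have := (abs_le.1 ha).1
    linarith
  have h2 : (a : ℝ) / (2 * r) ≤ 1 := by
    rw [div_le_one (by positivity)]
    exact (abs_le.1 ha).2
  have h3 := (fp_cos (θ := Real.arccos (a / (2 * r))) hc (by
    rw [Real.cos_arccos h1 h2]
    field_simp) j).1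
  rw [h3, abs_mul, abs_of_pos (by positivity)]
  calc 2 * r ^ j * |Real.cos _| ≤ 2 * r ^ j * 1 :=
        mul_le_mul_of_nonneg_left (Real.abs_cos_le_one _) (by positivity)
    _ = 2 * r ^ j := mul_one _

end pow

end Pool.Agent.TH180.RT
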