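import Pool.Agent.TH180.RT.Mom

/-!
The tail for the curves `y ^ 2 = x ^ 3 + A G x + B H` with fixed `G`, `H`, not necessarily minimal.
-/

set_option autoImplicit false
set_option linter.all false
set_option maxHeartbeats 1000000

open Polynomial Finset

namespace Pool.Agent.TH180.RT

open Pool.Agent.H341R2.Sharp (Irr mem_Irr)

variable {k : Type} [Field k] [Fintype k] [DecidableEq k]

/-- the symmetry of the moments -/
theorem sym_mul (h6 : (6 : k) ≠ 0) (S : Finset k[X]) {Y n D₁ D₂ : ℕ}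
    (hS : ∀ P ∈ S, P.Monic ∧ Irreducible P ∧ P.natDegree ≤ Y) (h1 : n * Y ≤ D₁) (h2 : n * Y ≤ D₂)
    (G H : k[X]) (w : k[X] → ℝ) (ε : S → Bool) :
    ∑ ω : Om k D₁ D₂, (∑ P : S, sg (ε P) * (w P * trP (ω.1.1 * G) (ω.2.1 * H) P)) ^ n =
      ∑ ω : Om k D₁ D₂, (∑ P : S, w P * trP (ω.1.1 * G) (ω.2.1 * H) P.1) ^ n := by
  classical
  simp_rw [Fintype.sum_pow]
  rw [sum_comm, sum_comm (s := (univ : Finset (Om k D₁ D₂)))]
  refine sum_congr rfl fun p _ => ?_
  set M : k[X] := ∏ i, (p i).1 with hM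
  have hmon : M.Monic := monic_prod_of_monic _ _ fun i _ => (hS _ (p i).2).1
  have hdeg : M.natDegree ≤ n * Y := by
    rw [hM, natDegree_prod_of_monic _ _ fun i _ => (hS _ (p i).2).1]
    calc ∑ i, ((p i).1).natDegree ≤ ∑ i : Fin n, Y := sum_le_sum fun i _ => (hS _ (p i).2).2.2
      _ = n * Y := by simp
  obtain ⟨l, hl⟩ := exists_l h6 S (fun P hP => ⟨(hS P hP).1, (hS P hP).2.1⟩)
    (fun P => if h : P ∈ S then ε ⟨P, h⟩ else true)
  have hcop : IsCoprime l M := by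
    rw [hM]
    refine IsCoprime.prod_right fun i _ => ?_
    exact ((hS _ (p i).2).2.1.coprime_iff_not_dvd.2 (hl _ (p i).2).1).symm
  have key := sym_class hmon (hdeg.trans h1) (hdeg.trans h2) hcop
    (fun A B => ∏ i, w (p i) * trP (A * G) (B * H) (p i).1) (by
      intro A A' B B' hA hB
      refine prod_congr rfl fun i _ => ?_
      have hd : (p i).1 ∣ M := dvd_prod_of_mem _ (mem_univ i)
      have e1 : (p i).1 ∣ A * G - A' * G := by
        rw [← sub_mul]
        exact (hd.trans hA).mul_right _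
      have e2 : (p i).1 ∣ B * H - B' * H := by
        rw [← sub_mul]
        exact (hd.trans hB).mul_right _
      rw [trP_congr e1 e2])
  rw [← key]
  refine sum_congr rfl fun ω _ => prod_congr rfl fun i _ => ?_
  rw [mul_assoc (l ^ 2), mul_assoc (l ^ 3),
    trP_twist h6 (hS _ (p i).2).2.1 (hl _ (p i).2).1]
  have h3 := (hl _ (p i).2).2
  rw [dif_pos (p i).2] at h3
  rw [h3]
  unfold sg
  cases ε (p i) <;> simp

/-- the moment bound for weighted sums of traces -/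
theorem moment_mul (h6 : (6 : k) ≠ 0) (S : Finset k[X]) {Y m D₁ D₂ : ℕ}
    (hS : ∀ P ∈ S, P.Monic ∧ Irreducible P ∧ P.natDegree ≤ Y) (hm : 0 < m)
    (h1 : 2 * m * Y ≤ D₁) (h2 : 2 * m * Y ≤ D₂) (G H : k[X]) (w : k[X] → ℝ) {V : ℝ} (hV : 0 < V)
    (hw : ∀ A B : k[X], ∑ P ∈ S, (w P * trP A B P) ^ 2 ≤ V) :
    ∑ ω : Om k D₁ D₂, (∑ P ∈ S, w P * trP (ω.1.1 * G) (ω.2.1 * H) P) ^ (2 * m) ≤
      (Fintype.card k : ℝ) ^ (D₁ + D₂) *
        (2 * (2 * m).factorial * (Real.exp 1 * V / (2 * m)) ^ m) := by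
  classical
  have key := moment (Ω := Om k D₁ D₂) (ι := S)
    (fun P ω => w P * trP (ω.1.1 * G) (ω.2.1 * H) P.1) hV
    (fun ω => by
      rw [sum_coe_sort S fun P => (w P * (trP (ω.1.1 * G) (ω.2.1 * H) P : ℝ)) ^ 2]
      exact hw _ _) hm (fun ε => sym_mul h6 S hS h1 h2 G H w ε)
  have e1 : (Fintype.card (Om k D₁ D₂) : ℝ) = (Fintype.card k : ℝ) ^ (D₁ + D₂) := by
    rw [Fintype.card_prod, card_LT, card_LT]
    push_cast
    rw [pow_add]
  rw [e1] at key
  refine le_trans (le_of_eq ?_) key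
  refine sum_congr rfl fun ω _ => ?_
  rw [sum_coe_sort S fun P => w P * (trP (ω.1.1 * G) (ω.2.1 * H) P : ℝ)]

theorem chi_sq {P : k[X]} (hP : Irreducible P) {s : k[X]} (hs : ¬ P ∣ s) : chi (s ^ 2) P = 1 := by
  classical
  unfold chi
  rw [dif_pos hP]
  have : Fact (Irreducible P) := ⟨hP⟩
  have := finAR hP.ne_zero
  let _ : Fintype (AdjoinRoot P) := Fintype.ofFinite _
  rw [map_pow]
  apply quadraticChar_sq_one'
  rw [Ne, AdjoinRoot.mk_eq_zero]
  exact hs

/-- scaling does not change the traces at the primes not dividing `s` -/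
theorem trP_scale (h6 : (6 : k) ≠ 0) {P : k[X]} (hP : Irreducible P) {s : k[X]} (hs : ¬ P ∣ s)
    (A B : k[X]) : trP (s ^ 4 * A) (s ^ 6 * B) P = trP A B P := by
  have h1 := trP_twist h6 hP (l := s ^ 2) (fun h => hs (hP.prime.dvd_of_dvd_pow h)) A B
  rw [chi_sq hP hs, one_mul, ← pow_mul, ← pow_mul] at h1
  exact h1

theorem wt_bound (h6 : (6 : k) ≠ 0) (hq : 4 ≤ Nat.card k) {Y : ℕ} (hY : 0 < Y) {P : k[X]}
    (hP : P ∈ Irr k (Y - 1)) (A B : k[X]) :
    |wt k Y P * trP A B P| ≤ 2 / (Y : ℝ) * P.natDegree := by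
  obtain ⟨p1, p2, p3⟩ := mem_Irr.1 hP
  have hY' : (0 : ℝ) < Y := by exact_mod_cast hY
  have hq0 := q_pos (k := k)
  set m := P.natDegree with hm
  have hm1 : 0 < m := p2.natDegree_pos
  have hm0 : (0 : ℝ) < m := by exact_mod_cast hm1
  have h3 := trP_bound h6 p2 A B
  rw [← hm] at h3
  have h4 : |wt k Y P| ≤ 2 / (Y : ℝ) * m / (Nat.card k : ℝ) ^ m := by
    unfold wt
    rw [← hm, abs_neg, abs_of_nonneg]
    · apply div_le_div_of_nonneg_right _ (by positivity)
      apply mul_le_mul_of_nonneg_right _ hm0.le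
      have : ((Y : ℝ) - m) ≤ Y := by linarith
      calc 2 / (Y : ℝ) ^ 2 * ((Y : ℝ) - m) ≤ 2 / (Y : ℝ) ^ 2 * Y :=
            mul_le_mul_of_nonneg_left this (by positivity)
        _ = 2 / (Y : ℝ) := by field_simp
    · have : (0 : ℝ) ≤ (Y : ℝ) - m := by
        have : (m : ℝ) ≤ Y := by exact_mod_cast (by omega : m ≤ Y)
        linarith
      positivity
  have hs : (2 : ℝ) ≤ √(Nat.card k) ^ m := by
    have h5 : (2 : ℝ) ≤ √(Nat.card k) := by
      apply Real.le_sqrt_of_sq_le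
      have : (4 : ℝ) ≤ Nat.card k := by exact_mod_cast hq
      linarith
    calc (2 : ℝ) = 2 ^ 1 := by norm_num
      _ ≤ 2 ^ m := pow_le_pow_right₀ (by norm_num) hm1
      _ ≤ √(Nat.card k) ^ m := pow_le_pow_left₀ (by norm_num) h5 m
  have hsq := sq_pow (k := k) m
  rw [abs_mul]
  calc |wt k Y P| * |(trP A B P : ℝ)| ≤
        2 / (Y : ℝ) * m / (Nat.card k : ℝ) ^ m * (2 * √(Nat.card k) ^ m) :=
        mul_le_mul h4 h3 (abs_nonneg _) (by positivity)
    _ = 2 / (Y : ℝ) * m * (2 / √(Nat.card k) ^ m) := by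
        rw [← hsq]
        field_simp
    _ ≤ 2 / (Y : ℝ) * m * 1 := by
        apply mul_le_mul_of_nonneg_left _ (by positivity)
        rw [div_le_one (by linarith)]
        exact hs
    _ = _ := mul_one _

theorem sum_deg_dvd {s : k[X]} (hs : s ≠ 0) (S : Finset k[X])
    (hS : ∀ P ∈ S, P.Monic ∧ Irreducible P ∧ P ∣ s) : ∑ P ∈ S, P.natDegree ≤ s.natDegree := by
  have hdvd : ∏ P ∈ S, P ∣ s := by
    refine Finset.prod_dvd_of_coprime ?_ fun P hP => (hS P hP).2.2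
    intro P hP Q hQ hne
    obtain ⟨p1, p2, -⟩ := hS P hP
    obtain ⟨q1, q2, -⟩ := hS Q hQ
    refine (p2.coprime_iff_not_dvd.2 fun h => hne ?_)
    exact eq_of_monic_of_associated p1 q1 (p2.associated_of_dvd q2 h)
  have h1 := natDegree_le_of_dvd hdvd hs
  rw [natDegree_prod_of_monic _ _ fun P hP => (hS P hP).1] at h1
  exact h1

open Classical in
/-- the comparison of the weighted sums -/
theorem compare (h6 : (6 : k) ≠ 0) (hq : 4 ≤ Nat.card k) {Y : ℕ} (hY : 0 < Y) {s : k[X]}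
    (hs : s ≠ 0) (A B : k[X]) :
    ∑ P ∈ Irr k (Y - 1), wt k Y P * trP A B P ≤
      ∑ P ∈ Irr k (Y - 1), wt k Y P * trP (s ^ 4 * A) (s ^ 6 * B) P +
        4 / (Y : ℝ) * s.natDegree := by
  have hY' : (0 : ℝ) < Y := by exact_mod_cast hY
  have h1 : ∀ P ∈ Irr k (Y - 1), wt k Y P * (trP A B P : ℝ) ≤
      wt k Y P * trP (s ^ 4 * A) (s ^ 6 * B) P +
        if P ∣ s then 4 / (Y : ℝ) * P.natDegree else 0 := by
    intro P hP
    by_cases hd : P ∣ s
    · rw [if_pos hd]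
      have a1 := (abs_le.1 (wt_bound h6 hq hY hP A B)).2
      have a2 := (abs_le.1 (wt_bound h6 hq hY hP (s ^ 4 * A) (s ^ 6 * B))).1
      have e : 4 / (Y : ℝ) * P.natDegree = 2 / (Y : ℝ) * P.natDegree + 2 / (Y : ℝ) * P.natDegree := by
        ring
      rw [e]
      linarith
    · rw [if_neg hd, trP_scale h6 (mem_Irr.1 hP).2.1 hd, add_zero]
  refine (sum_le_sum h1).trans ?_
  rw [sum_add_distrib]
  apply add_le_add le_rfl
  rw [← sum_filter, ← mul_sum]
  apply mul_le_mul_of_nonneg_left _ (by positivity)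
  have h2 := sum_deg_dvd hs ((Irr k (Y - 1)).filter fun P => P ∣ s) (fun P hP => by
    rw [mem_filter, mem_Irr] at hP
    exact ⟨hP.1.1, hP.1.2.1, hP.2⟩)
  exact_mod_cast h2

open Classical in
/-- the curve with the minimal equation `(A, B)` obtained from `(A', B')` has large order -/
def Big2 {k : Type} [Field k] (n R : ℕ) (A' B' : k[X]) : Prop :=
  ∃ (s A B : k[X]) (d N : ℕ) (β : Fin N → ℂ), s ≠ 0 ∧ s.natDegree ≤ 2 * n ∧ A' = s ^ 4 * A ∧
    B' = s ^ 6 * B ∧ N ≤ 24 * n ∧ (∀ i, ‖β i‖ = 1) ∧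
    (∀ m : ℕ, 0 < m → (psum d A B m : ℂ) = -((Nat.card k : ℂ) ^ m * ∑ i, β i ^ m)) ∧
    R ≤ (univ.filter fun i => β i = 1).card

open Classical in
/-- **the tail** -/
theorem tail_mul (h6 : (6 : k) ≠ 0) (hq4 : 4 ≤ Nat.card k) (G H : k[X]) (n R : ℕ) (hR : 0 < R) :
    ((univ.filter fun ω : Om k (n + 1) (n + 1) => Big2 n R (ω.1.1 * G) (ω.2.1 * H)).card : ℝ) ≤
      tl 144 R * (Nat.card k : ℝ) ^ (2 * n + 2) := by
  have hq := q_pos (k := k)
  have hcard : ((univ.filter fun ω : Om k (n + 1) (n + 1) =>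
      Big2 n R (ω.1.1 * G) (ω.2.1 * H)).card : ℝ) ≤ (Nat.card k : ℝ) ^ (2 * n + 2) := by
    have h1 := card_le_univ (univ.filter fun ω : Om k (n + 1) (n + 1) =>
      Big2 n R (ω.1.1 * G) (ω.2.1 * H))
    rw [Fintype.card_prod, card_LT, ← pow_add,
      show n + 1 + (n + 1) = 2 * n + 2 by ring, ← Nat.card_eq_fintype_card] at h1
    exact_mod_cast h1
  by_cases hsmall : R < 144
  · refine hcard.trans (le_of_eq ?_)
    unfold tl
    rw [Nat.div_eq_of_lt hsmall, pow_zero, one_mul]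
  push Not at hsmall
  have hR' : (144 : ℝ) ≤ R := by exact_mod_cast hsmall
  by_cases hbig : 24 * n < R
  · have h0 : (univ.filter fun ω : Om k (n + 1) (n + 1) =>
        Big2 n R (ω.1.1 * G) (ω.2.1 * H)) = ∅ := by
      rw [filter_eq_empty_iff]
      rintro ω - ⟨s, A, B, d, N, β, -, -, -, -, hN, -, -, h⟩
      have h1 : (univ.filter fun i => β i = 1).card ≤ N := by
        simpa using card_le_univ (univ.filter fun i => β i = 1)
      omega
    rw [h0]
    simp only [card_empty, Nat.cast_zero]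
    exact mul_nonneg (tl_nonneg _ _) (by positivity)
  push Not at hbig
  have hn : 0 < n := by omega
  set m : ℕ := R / 144 with hm
  have hm1 : 144 * m ≤ R := Nat.mul_div_le R 144
  have hm0 : 0 < m := Nat.div_pos hsmall (by norm_num)
  set Y : ℕ := (72 * n + R - 1) / R with hY
  have hY0 : 0 < Y := Nat.div_pos (by omega) hR
  have hY1 : 72 * n ≤ Y * R := by
    have h1 : 72 * n + R - 1 < (Y + 1) * R := by
      rw [hY, mul_comm ((72 * n + R - 1) / R + 1) R]
      exact Nat.lt_mul_div_succ _ hR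
    have e : (Y + 1) * R = Y * R + R := by ring
    rw [e] at h1
    omega
  have hY2 : (Y - 1) * R ≤ 72 * n := by
    have h1 : Y * R ≤ 72 * n + R - 1 := Nat.div_mul_le_self _ _
    rw [Nat.sub_mul, one_mul]
    omega
  have hY3 : 2 * m * (Y - 1) ≤ n := by
    have h1 : 72 * (2 * m * (Y - 1)) ≤ 72 * n := by
      calc 72 * (2 * m * (Y - 1)) = (Y - 1) * (144 * m) := by ring
        _ ≤ (Y - 1) * R := by gcongr
        _ ≤ 72 * n := hY2
    omega
  have hmom := moment_mul h6 (Irr k (Y - 1)) (Y := Y - 1) (m := m) (D₁ := n + 1)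
    (D₂ := n + 1) (fun P hP => mem_Irr.1 hP) hm0 (by omega) (by omega) G H (wt k Y)
    (V := 8) (by norm_num) (fun A B => var_bound h6 hY0 A B)
  have hYR : (0 : ℝ) < Y := by exact_mod_cast hY0
  have hY1' : 72 * (n : ℝ) ≤ Y * R := by exact_mod_cast hY1
  have hNY : ∀ N : ℕ, N ≤ 24 * n → (N : ℝ) / Y ≤ R / 3 := by
    intro N hN
    have hN' : (N : ℝ) ≤ 24 * n := by exact_mod_cast hN
    rw [div_le_div_iff₀ hYR (by norm_num)]
    linarith
  have hsY : ∀ t : ℕ, t ≤ 2 * n → 4 / (Y : ℝ) * t ≤ R / 9 := by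
    intro t ht
    have ht' : (t : ℝ) ≤ 2 * n := by exact_mod_cast ht
    rw [div_mul_eq_mul_div, div_le_div_iff₀ hYR (by norm_num)]
    linarith
  have hmark : ((univ.filter fun ω : Om k (n + 1) (n + 1) =>
      Big2 n R (ω.1.1 * G) (ω.2.1 * H)).card : ℝ) * ((R : ℝ) / 3) ^ (2 * m) ≤
      ∑ ω : Om k (n + 1) (n + 1),
        (∑ P ∈ Irr k (Y - 1), wt k Y P * trP (ω.1.1 * G) (ω.2.1 * H) P) ^ (2 * m) := by
    rw [← nsmul_eq_mul, ← sum_const]
    refine (sum_le_sum fun ω hω => ?_).trans (sum_le_sum_of_subset_of_nonneg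
      (filter_subset _ _) fun ω _ _ => ?_)
    · rw [mem_filter] at hω
      obtain ⟨s, A, B, d, N, β, hs0, hs, hA, hB, hN, hβ, hps, hc⟩ := hω.2
      have h1 := det h6 hY0 hβ hps
      have h2 := hNY N hN
      have h3 : (R : ℝ) ≤ ((univ.filter fun i => β i = 1).card : ℝ) := by exact_mod_cast hc
      have h4 := compare h6 hq4 hY0 hs0 A B
      have h5 := hsY _ hs
      rw [hA, hB]
      apply pow_le_pow_left₀ (by positivity)
      linarith
    · rw [pow_mul]
      positivity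
  have hnum := numeric hm0 (show 18 * m ≤ R by omega)
  have e1 : (n + 1 + (n + 1)) = 2 * n + 2 := by ring
  rw [e1, ← Nat.card_eq_fintype_card] at hmom
  have h1 := hmark.trans hmom
  have h2 : ((univ.filter fun ω : Om k (n + 1) (n + 1) =>
      Big2 n R (ω.1.1 * G) (ω.2.1 * H)).card : ℝ) * ((R : ℝ) / 3) ^ (2 * m) ≤
      (tl 144 R * (Nat.card k : ℝ) ^ (2 * n + 2)) * ((R : ℝ) / 3) ^ (2 * m) := by
    refine h1.trans ?_
    calc (Nat.card k : ℝ) ^ (2 * n + 2) *
          (2 * ((2 * m).factorial : ℝ) * (Real.exp 1 * 8 / (2 * m)) ^ m) ≤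
          (Nat.card k : ℝ) ^ (2 * n + 2) * ((44 / (R : ℝ)) ^ m * ((R : ℝ) / 3) ^ (2 * m)) :=
          mul_le_mul_of_nonneg_left hnum (by positivity)
      _ = _ := by
        unfold tl
        ring
  exact le_of_mul_le_mul_right h2 (by positivity)

end Pool.Agent.TH180.RT
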