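import Pool.Agent.TH180.RT.Mul
import Pool.Agent.TH180.R4.Map

/-!
Curves with coefficients in the field of rational functions: minimal equations and ranks.
-/

set_option autoImplicit false
set_option linter.all false
set_option maxHeartbeats 1000000

open Polynomial Finset

namespace Pool.Agent.TH180.RT

open Pool.Agent.H341R2.Sharp (Irr mem_Irr Mon mem_Mon)
open Pool.Agent.W313.Gr (curve)

section scale

variable {k : Type} [Field k]

/-- minimal equations exist -/
theorem exists_min {A' B' : k[X]} (hΔ : 4 * A' ^ 3 + 27 * B' ^ 2 ≠ 0) {n : ℕ}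
    (hA : A'.natDegree ≤ 8 * n) (hB : B'.natDegree ≤ 12 * n) :
    ∃ (s A B : k[X]) (d : ℕ), s ≠ 0 ∧ s.natDegree ≤ 2 * n ∧ A' = s ^ 4 * A ∧ B' = s ^ 6 * B ∧
      d ≤ 2 * n ∧ IsMin d A B := by
  classical
  have h0 : A' ≠ 0 ∨ B' ≠ 0 := by
    by_contra h
    push Not at h
    apply hΔ
    rw [h.1, h.2]
    ring
  have hbd : ∀ s : k[X], s ^ 4 ∣ A' → s ^ 6 ∣ B' → s.natDegree ≤ 2 * n := by
    intro s h1 h2
    rcases h0 with h | h
    · have := natDegree_le_of_dvd h1 h
      rw [natDegree_pow] at this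
      omega
    · have := natDegree_le_of_dvd h2 h
      rw [natDegree_pow] at this
      omega
  let P : ℕ → Prop := fun e => ∃ s : k[X], s ≠ 0 ∧ s ^ 4 ∣ A' ∧ s ^ 6 ∣ B' ∧ s.natDegree = e
  have hP0 : P 0 := ⟨1, one_ne_zero, by simp, by simp, by simp⟩
  have hspec := Nat.findGreatest_spec (P := P) (Nat.zero_le (2 * n)) hP0
  have hgr := fun (e : ℕ) => Nat.findGreatest_is_greatest (P := P) (n := 2 * n) (k := e)
  obtain ⟨s, hs0, ⟨A, hA'⟩, ⟨B, hB'⟩, hs⟩ := hspec
  have hs4 : s ^ 4 ≠ 0 := pow_ne_zero _ hs0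
  have hs6 : s ^ 6 ≠ 0 := pow_ne_zero _ hs0
  have hΔ' : 4 * A ^ 3 + 27 * B ^ 2 ≠ 0 := by
    intro h
    apply hΔ
    have : 4 * A' ^ 3 + 27 * B' ^ 2 = s ^ 12 * (4 * A ^ 3 + 27 * B ^ 2) := by
      rw [hA', hB']
      ring
    rw [this, h, mul_zero]
  have hdA : A.natDegree ≤ 8 * n := by
    by_cases h : A = 0
    · rw [h]; simp
    · have : A'.natDegree = (s ^ 4).natDegree + A.natDegree := by
        rw [hA', natDegree_mul hs4 h]
      omega
  have hdB : B.natDegree ≤ 12 * n := by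
    by_cases h : B = 0
    · rw [h]; simp
    · have : B'.natDegree = (s ^ 6).natDegree + B.natDegree := by
        rw [hB', natDegree_mul hs6 h]
      omega
  have hex : ∃ d, A.natDegree ≤ 4 * d ∧ B.natDegree ≤ 6 * d := ⟨2 * n, by omega, by omega⟩
  refine ⟨s, A, B, Nat.find hex, hs0, hbd s ⟨A, hA'⟩ ⟨B, hB'⟩, hA', hB',
    Nat.find_min' hex ⟨by omega, by omega⟩, (Nat.find_spec hex).1, (Nat.find_spec hex).2,
    fun hd h => ?_, hΔ', fun Q hQ h => ?_⟩
  · have := Nat.find_min hex (m := Nat.find hex - 1) (by omega)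
    apply this
    constructor <;> omega
  · have h1 : (s * Q) ^ 4 ∣ A' := by
      rw [hA', mul_pow]
      exact mul_dvd_mul_left _ h.1
    have h2 : (s * Q) ^ 6 ∣ B' := by
      rw [hB', mul_pow]
      exact mul_dvd_mul_left _ h.2
    have h3 := hbd _ h1 h2
    have h4 : (s * Q).natDegree = s.natDegree + Q.natDegree := natDegree_mul hs0 hQ.ne_zero
    have h5 := hQ.natDegree_pos
    refine hgr (s * Q).natDegree ?_ h3 ⟨s * Q, mul_ne_zero hs0 hQ.ne_zero, h1, h2, rfl⟩
    omega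

open Classical in
/-- the rank is invariant under scaling -/
theorem rank_scale {K : Type} [Field K] (h2 : (2 : K) ≠ 0) {a b a' b' c : K} (hc : c ≠ 0)
    (ha : a' = c ^ 4 * a) (hb : b' = c ^ 6 * b) (hΔ : 4 * a ^ 3 + 27 * b ^ 2 ≠ 0) :
    Module.rank ℤ (curve a b).toAffine.Point = Module.rank ℤ (curve a' b').toAffine.Point := by
  have hΔ' : 4 * a' ^ 3 + 27 * b' ^ 2 ≠ 0 := by
    have : 4 * a' ^ 3 + 27 * b' ^ 2 = c ^ 12 * (4 * a ^ 3 + 27 * b ^ 2) := by
      rw [ha, hb]
      ring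
    rw [this]
    exact mul_ne_zero (pow_ne_zero _ hc) hΔ
  have ha' : a = c⁻¹ ^ 4 * a' := by
    rw [ha]
    field_simp
  have hb' : b = c⁻¹ ^ 6 * b' := by
    rw [hb]
    field_simp
  have g1 := R4.gmap_inj (RingHom.id K) hc (A := a) (B := b) (A' := a') (B' := b') ha hb h2 hΔ'
  have g2 := R4.gmap_inj (RingHom.id K) (inv_ne_zero hc) (A := a') (B := b') (A' := a) (B' := b)
    ha' hb' h2 hΔ
  apply le_antisymm
  · exact LinearMap.rank_le_of_injective
      (R4.gmap (RingHom.id K) hc (A := a) (B := b) (A' := a') (B' := b') ha hb h2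
        hΔ').toIntLinearMap g1
  · exact LinearMap.rank_le_of_injective
      (R4.gmap (RingHom.id K) (inv_ne_zero hc) (A := a') (B := b') (A' := a) (B' := b) ha' hb' h2
        hΔ).toIntLinearMap g2

end scale

section count

variable {k : Type} [Field k] [Fintype k] [DecidableEq k]

theorem card_Mon (n : ℕ) : (Mon k n).card = Nat.card k ^ n := by
  have h1 : (Mon k n).card = Nat.card {p : k[X] // p.Monic ∧ p.natDegree = n} := by
    rw [← Nat.card_eq_finsetCard]
    exact Nat.card_congr (Equiv.subtypeEquivRight fun p => mem_Mon)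
  rw [h1, Nat.card_congr (monicEquivDegreeLT n), Nat.card_eq_fintype_card, card_LT,
    Nat.card_eq_fintype_card]

/-- the monic polynomials of degree at most `n` -/
noncomputable def MonLE (k : Type) [Field k] [Fintype k] [DecidableEq k] (n : ℕ) : Finset k[X] :=
  (range (n + 1)).biUnion (Mon k)

theorem mem_MonLE {n : ℕ} {P : k[X]} : P ∈ MonLE k n ↔ P.Monic ∧ P.natDegree ≤ n := by
  unfold MonLE
  rw [mem_biUnion]
  constructor
  · rintro ⟨i, hi, hP⟩
    rw [mem_Mon] at hP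
    rw [mem_range] at hi
    exact ⟨hP.1, by omega⟩
  · rintro ⟨h1, h2⟩
    exact ⟨P.natDegree, mem_range.2 (by omega), mem_Mon.2 ⟨h1, rfl⟩⟩

theorem card_MonLE (hq : 5 ≤ Nat.card k) (n : ℕ) :
    ((MonLE k n).card : ℝ) ≤ 5 / 4 * (Nat.card k : ℝ) ^ n := by
  have h1 : (MonLE k n).card ≤ ∑ i ∈ range (n + 1), Nat.card k ^ i := by
    unfold MonLE
    refine card_biUnion_le.trans (sum_le_sum fun i _ => ?_)
    rw [card_Mon]
  have h2 : ∀ n : ℕ, ∑ i ∈ range (n + 1), (Nat.card k : ℝ) ^ i ≤ 5 / 4 * (Nat.card k : ℝ) ^ n := by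
    intro n
    induction n with
    | zero =>
      simp
      norm_num
    | succ n ih =>
      rw [sum_range_succ, pow_succ]
      have h3 : (5 : ℝ) ≤ Nat.card k := by exact_mod_cast hq
      have h4 : (0 : ℝ) < (Nat.card k : ℝ) ^ n := pow_pos q_pos n
      nlinarith
  have h3 : ((MonLE k n).card : ℝ) ≤ ∑ i ∈ range (n + 1), (Nat.card k : ℝ) ^ i := by
    exact_mod_cast h1
  exact h3.trans (h2 n)

open Classical in
theorem card_mon_mult {P : k[X]} (hP : P.Monic) {n : ℕ} :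
    ((Mon k n).filter fun D => P ∣ D).card ≤ Nat.card k ^ (n - P.natDegree) := by
  rw [← card_Mon]
  refine card_le_card_of_injOn (fun D => D /ₘ P) ?_ ?_
  · intro D hD
    rw [mem_coe, mem_filter, mem_Mon] at hD
    obtain ⟨⟨h1, h2⟩, c, hc⟩ := hD
    show D /ₘ P ∈ (Mon k (n - P.natDegree) : Set k[X])
    rw [mem_coe, mem_Mon, hc, mul_divByMonic_cancel_left _ hP]
    have hcm : c.Monic := hP.of_mul_monic_left (hc ▸ h1)
    refine ⟨hcm, ?_⟩
    rw [hc, hP.natDegree_mul hcm] at h2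
    omega
  · intro D hD D' hD' h
    rw [mem_coe, mem_filter] at hD hD'
    obtain ⟨-, c, hc⟩ := hD
    obtain ⟨-, c', hc'⟩ := hD'
    dsimp only at h
    rw [hc, hc', mul_divByMonic_cancel_left _ hP, mul_divByMonic_cancel_left _ hP] at h
    rw [hc, hc', h]

open Classical in
/-- the pairs `(A, D)` with `D` monic of degree `n` -/
noncomputable def Cop (k : Type) [Field k] [Fintype k] [DecidableEq k] (n : ℕ) :
    Finset (degreeLT k (n + 1) × k[X]) :=
  ((univ : Finset (degreeLT k (n + 1))) ×ˢ Mon k n).filter fun x => IsCoprime x.1.1 x.2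

theorem fifth_sum (n : ℕ) : ∑ e ∈ Icc 1 n, ((1 : ℝ) / 5) ^ e ≤ 1 / 4 := by
  have h : ∀ n : ℕ, ∑ e ∈ Icc 1 n, ((1 : ℝ) / 5) ^ e = 1 / 4 - 1 / 4 * (1 / 5) ^ n := by
    intro n
    induction n with
    | zero => simp
    | succ n ih =>
      rw [Finset.sum_Icc_succ_top (by omega : 1 ≤ n + 1), ih, pow_succ]
      ring
  rw [h]
  have : (0 : ℝ) < (1 / 5) ^ n := by positivity
  linarith

open Classical in
theorem card_Cop (hq5 : 5 ≤ Nat.card k) (n : ℕ) :
    3 / 4 * (Nat.card k : ℝ) ^ (2 * n + 1) ≤ ((Cop k n).card : ℝ) := by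
  have hq : (5 : ℝ) ≤ Nat.card k := by exact_mod_cast hq5
  have hq0 := q_pos (k := k)
  set U := (univ : Finset (degreeLT k (n + 1))) ×ˢ Mon k n with hU
  have hUc : (U.card : ℝ) = (Nat.card k : ℝ) ^ (2 * n + 1) := by
    rw [hU, card_product, card_univ, card_LT, card_Mon, Nat.card_eq_fintype_card, ← pow_add]
    push_cast
    congr 1
    ring
  have h1 : U ⊆ Cop k n ∪ (Icc 1 n).biUnion fun e => (Pd k e).biUnion fun P =>
      (univ.filter fun A : degreeLT k (n + 1) => P ∣ A.1) ×ˢ ((Mon k n).filter fun D => P ∣ D) := by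
    intro x hx
    by_cases hc : IsCoprime x.1.1 x.2
    · rw [mem_union]
      left
      exact mem_filter.2 ⟨hx, hc⟩
    · rw [mem_union]
      right
      rw [hU, mem_product, mem_Mon] at hx
      have hD0 : x.2 ≠ 0 := hx.2.1.ne_zero
      obtain ⟨P, p1, p2, p3, p4⟩ : ∃ P : k[X], P.Monic ∧ Irreducible P ∧ P ∣ x.1.1 ∧ P ∣ x.2 := by
        have h2 : ¬ IsUnit (gcd x.1.1 x.2) := fun h => hc ((gcd_isUnit_iff _ _).1 h)
        have h3 : gcd x.1.1 x.2 ≠ 0 := fun h => hD0 ((gcd_eq_zero_iff _ _).1 h).2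
        obtain ⟨P, hP, hPd⟩ := WfDvdMonoid.exists_irreducible_factor h2 h3
        have hP0 := hP.ne_zero
        have hu : IsUnit (C P.leadingCoeff⁻¹ : k[X]) :=
          isUnit_C.2 (isUnit_iff_ne_zero.2 (inv_ne_zero (leadingCoeff_ne_zero.2 hP0)))
        have hass : Associated P (P * C P.leadingCoeff⁻¹) := associated_mul_unit_right _ _ hu
        have hPd' := hass.symm.dvd.trans hPd
        exact ⟨P * C P.leadingCoeff⁻¹, monic_mul_leadingCoeff_inv hP0, hass.irreducible hP,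
          hPd'.trans (gcd_dvd_left _ _), hPd'.trans (gcd_dvd_right _ _)⟩
      have hdeg := natDegree_le_of_dvd p4 hD0
      rw [hx.2.2] at hdeg
      rw [mem_biUnion]
      refine ⟨P.natDegree, mem_Icc.2 ⟨p2.natDegree_pos, hdeg⟩, ?_⟩
      rw [mem_biUnion]
      refine ⟨P, mem_Pd.2 ⟨p1, p2, rfl⟩, ?_⟩
      rw [mem_product, mem_filter, mem_filter, mem_Mon]
      exact ⟨⟨mem_univ _, p3⟩, ⟨hx.2, p4⟩⟩
  have h2 := (card_le_card h1).trans (card_union_le _ _)
  have h3 : (((Icc 1 n).biUnion fun e => (Pd k e).biUnion fun P =>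
      (univ.filter fun A : degreeLT k (n + 1) => P ∣ A.1) ×ˢ
        ((Mon k n).filter fun D => P ∣ D)).card : ℝ) ≤ (Nat.card k : ℝ) ^ (2 * n + 1) / 4 := by
    have h4 : (((Icc 1 n).biUnion fun e => (Pd k e).biUnion fun P =>
      (univ.filter fun A : degreeLT k (n + 1) => P ∣ A.1) ×ˢ
        ((Mon k n).filter fun D => P ∣ D)).card : ℝ) ≤
        ∑ e ∈ Icc 1 n, (((Pd k e).card * (Nat.card k ^ (n + 1 - e) * Nat.card k ^ (n - e)) : ℕ) : ℝ) := by
      have : ((Icc 1 n).biUnion fun e => (Pd k e).biUnion fun P =>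
        (univ.filter fun A : degreeLT k (n + 1) => P ∣ A.1) ×ˢ
          ((Mon k n).filter fun D => P ∣ D)).card ≤
          ∑ e ∈ Icc 1 n, (Pd k e).card * (Nat.card k ^ (n + 1 - e) * Nat.card k ^ (n - e)) := by
        refine card_biUnion_le.trans (sum_le_sum fun e he => ?_)
        rw [mem_Icc] at he
        refine card_biUnion_le.trans ?_
        rw [← smul_eq_mul, ← sum_const]
        refine sum_le_sum fun P hP => ?_
        obtain ⟨p1, p2, p3⟩ := mem_Pd.1 hP
        rw [card_product]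
        apply Nat.mul_le_mul
        · exact card_mult p1 p3 (by omega)
        · have := card_mon_mult p1 (n := n)
          rw [p3] at this
          exact this
      exact_mod_cast this
    refine h4.trans ?_
    have h5 : ∀ e ∈ Icc 1 n, (((Pd k e).card * (Nat.card k ^ (n + 1 - e) *
        Nat.card k ^ (n - e)) : ℕ) : ℝ) ≤ (Nat.card k : ℝ) ^ (2 * n + 1) * (1 / 5) ^ e := by
      intro e he
      rw [mem_Icc] at he
      have h8 : ((Pd k e).card : ℝ) ≤ (Nat.card k : ℝ) ^ e := by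
        have h9 := card_Pd_real (k := k) e
        have h10 : (1 : ℝ) ≤ e := by exact_mod_cast he.1
        have h11 : (0 : ℝ) ≤ (Pd k e).card := Nat.cast_nonneg _
        nlinarith
      have h9 : (Nat.card k : ℝ) ^ (2 * n + 1) = (Nat.card k : ℝ) ^ e *
          ((Nat.card k : ℝ) ^ (n + 1 - e) * (Nat.card k : ℝ) ^ (n - e)) * (Nat.card k : ℝ) ^ e := by
        rw [← pow_add, ← pow_add, ← pow_add]
        congr 1
        omega
      push_cast
      have h10 : (0 : ℝ) < (Nat.card k : ℝ) ^ (n + 1 - e) * (Nat.card k : ℝ) ^ (n - e) := by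
        positivity
      have h11 : (1 : ℝ) ≤ (Nat.card k : ℝ) ^ e * (1 / 5) ^ e := by
        rw [← mul_pow]
        apply one_le_pow₀
        linarith
      rw [h9]
      calc ((Pd k e).card : ℝ) * ((Nat.card k : ℝ) ^ (n + 1 - e) * (Nat.card k : ℝ) ^ (n - e)) ≤
            (Nat.card k : ℝ) ^ e * ((Nat.card k : ℝ) ^ (n + 1 - e) * (Nat.card k : ℝ) ^ (n - e)) :=
            mul_le_mul_of_nonneg_right h8 h10.le
        _ = (Nat.card k : ℝ) ^ e *
            ((Nat.card k : ℝ) ^ (n + 1 - e) * (Nat.card k : ℝ) ^ (n - e)) * 1 := by ring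
        _ ≤ (Nat.card k : ℝ) ^ e *
            ((Nat.card k : ℝ) ^ (n + 1 - e) * (Nat.card k : ℝ) ^ (n - e)) *
            ((Nat.card k : ℝ) ^ e * (1 / 5) ^ e) :=
            mul_le_mul_of_nonneg_left h11 (by positivity)
        _ = _ := by ring
    refine (sum_le_sum h5).trans ?_
    rw [← mul_sum]
    calc (Nat.card k : ℝ) ^ (2 * n + 1) * ∑ e ∈ Icc 1 n, ((1 : ℝ) / 5) ^ e ≤
          (Nat.card k : ℝ) ^ (2 * n + 1) * (1 / 4) :=
          mul_le_mul_of_nonneg_left (fifth_sum n) (by positivity)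
      _ = _ := by ring
  have h4 : (U.card : ℝ) ≤ ((Cop k n).card : ℝ) +
      (((Icc 1 n).biUnion fun e => (Pd k e).biUnion fun P =>
      (univ.filter fun A : degreeLT k (n + 1) => P ∣ A.1) ×ˢ
        ((Mon k n).filter fun D => P ∣ D)).card : ℝ) := by
    exact_mod_cast h2
  linarith

end count

end Pool.Agent.TH180.RT
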