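import Pool.Agent.TH180.RT.Rat

/-!
All elliptic curves with coefficients in `k(t)` of bounded height.
-/

set_option autoImplicit false
set_option linter.all false
set_option maxHeartbeats 1000000

open Polynomial Finset

namespace Pool.Agent.TH180.RT

open Pool.Agent.H341R2.Sharp (Irr mem_Irr Mon mem_Mon)
open Pool.Agent.W313.Gr (curve)

/-- numerator and denominator have degree at most `n` -/
def Ht {k : Type} [Field k] (n : ℕ) (x : RatFunc k) : Prop :=
  x.num.natDegree ≤ n ∧ x.denom.natDegree ≤ n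

section up

variable {k : Type} [Field k] [Fintype k] [DecidableEq k]

/-- the first multiplier -/
noncomputable def mG (D E : k[X]) : k[X] := D ^ 3 * E ^ 4

/-- the second multiplier -/
noncomputable def mH (D E : k[X]) : k[X] := D ^ 6 * E ^ 5

open Classical in
theorem upper (h6 : (6 : k) ≠ 0) (hq5 : 5 ≤ Nat.card k) {n R : ℕ} (hR : 0 < R)
    (p : RatFunc k → RatFunc k → Prop)
    (hp : ∀ a b, p a b → Ht n a ∧ Ht n b ∧
      Big2 n R (a.num * mG a.denom b.denom) (b.num * mH a.denom b.denom)) :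
    {x : RatFunc k × RatFunc k | p x.1 x.2}.Finite ∧
    ({x : RatFunc k × RatFunc k | p x.1 x.2}.ncard : ℝ) ≤
      25 / 16 * tl 144 R * (Nat.card k : ℝ) ^ (4 * n + 2) := by
  set T : Finset (Σ _ : k[X] × k[X], Om k (n + 1) (n + 1)) :=
    (MonLE k n ×ˢ MonLE k n).sigma fun DE => univ.filter fun ω : Om k (n + 1) (n + 1) =>
      Big2 n R (ω.1.1 * mG DE.1 DE.2) (ω.2.1 * mH DE.1 DE.2) with hT
  let g : (Σ _ : k[X] × k[X], Om k (n + 1) (n + 1)) → RatFunc k × RatFunc k := fun x =>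
    (algebraMap k[X] (RatFunc k) x.2.1.1 / algebraMap k[X] (RatFunc k) x.1.1,
      algebraMap k[X] (RatFunc k) x.2.2.1 / algebraMap k[X] (RatFunc k) x.1.2)
  have hsub : {x : RatFunc k × RatFunc k | p x.1 x.2} ⊆ ((T.image g : Finset _) : Set _) := by
    intro x hx
    obtain ⟨h1, h2, h3⟩ := hp _ _ hx
    rw [mem_coe, mem_image]
    refine ⟨⟨(x.1.denom, x.2.denom), (⟨x.1.num, mem_of_natDegree h1.1⟩,
      ⟨x.2.num, mem_of_natDegree h2.1⟩)⟩, ?_, ?_⟩
    · rw [hT, mem_sigma, mem_product, mem_MonLE, mem_MonLE, mem_filter]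
      exact ⟨⟨⟨x.1.monic_denom, h1.2⟩, ⟨x.2.monic_denom, h2.2⟩⟩, mem_univ _, h3⟩
    · exact Prod.ext (RatFunc.num_div_denom x.1) (RatFunc.num_div_denom x.2)
  refine ⟨(finite_toSet _).subset hsub, ?_⟩
  have h1 : {x : RatFunc k × RatFunc k | p x.1 x.2}.ncard ≤ T.card := by
    refine (Set.ncard_le_ncard hsub (finite_toSet _)).trans ?_
    rw [Set.ncard_coe_finset]
    exact card_image_le
  have h2 : (T.card : ℝ) ≤ ∑ DE ∈ MonLE k n ×ˢ MonLE k n,
      tl 144 R * (Nat.card k : ℝ) ^ (2 * n + 2) := by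
    rw [hT, card_sigma]
    push_cast
    exact sum_le_sum fun DE _ => tail_mul h6 (by omega) _ _ n R hR
  have h3 := card_MonLE hq5 n
  have h4 := tl_nonneg 144 R
  have hq0 := q_pos (k := k)
  have h5 : (0 : ℝ) ≤ (MonLE k n).card := Nat.cast_nonneg _
  rw [sum_const, nsmul_eq_mul, card_product] at h2
  push_cast at h2
  calc ({x : RatFunc k × RatFunc k | p x.1 x.2}.ncard : ℝ) ≤ (T.card : ℝ) := by exact_mod_cast h1
    _ ≤ ((MonLE k n).card * (MonLE k n).card : ℝ) *
        (tl 144 R * (Nat.card k : ℝ) ^ (2 * n + 2)) := h2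
    _ ≤ ((5 / 4 * (Nat.card k : ℝ) ^ n) * (5 / 4 * (Nat.card k : ℝ) ^ n)) *
        (tl 144 R * (Nat.card k : ℝ) ^ (2 * n + 2)) := by
        apply mul_le_mul_of_nonneg_right _ (by positivity)
        exact mul_le_mul h3 h3 h5 (by positivity)
    _ = 25 / 16 * tl 144 R * (Nat.card k : ℝ) ^ (4 * n + 2) := by
        have e : (Nat.card k : ℝ) ^ (4 * n + 2) = (Nat.card k : ℝ) ^ n * (Nat.card k : ℝ) ^ n *
          (Nat.card k : ℝ) ^ (2 * n + 2) := by
          rw [← pow_add, ← pow_add]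
          congr 1
          ring
        rw [e]
        ring

open Classical in
/-- the elements of height at most `n` -/
noncomputable def HtF (k : Type) [Field k] [Fintype k] [DecidableEq k] (n : ℕ) :
    Finset (RatFunc k) :=
  (((univ : Finset (degreeLT k (n + 1))) ×ˢ MonLE k n).image fun x =>
    algebraMap k[X] (RatFunc k) x.1.1 / algebraMap k[X] (RatFunc k) x.2).filter fun x => Ht n x

theorem mem_HtF {n : ℕ} {x : RatFunc k} : x ∈ HtF k n ↔ Ht n x := by
  classical
  unfold HtF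
  rw [mem_filter, mem_image]
  constructor
  · exact fun h => h.2
  · intro h
    refine ⟨⟨(⟨x.num, mem_of_natDegree h.1⟩, x.denom), ?_, RatFunc.num_div_denom x⟩, h⟩
    rw [mem_product, mem_MonLE]
    exact ⟨mem_univ _, x.monic_denom, h.2⟩

theorem card_HtF (hq5 : 5 ≤ Nat.card k) (n : ℕ) :
    3 / 4 * (Nat.card k : ℝ) ^ (2 * n + 1) ≤ ((HtF k n).card : ℝ) := by
  classical
  refine (card_Cop hq5 n).trans ?_
  have h : (Cop k n).card ≤ (HtF k n).card := by
    refine card_le_card_of_injOn (fun x => algebraMap k[X] (RatFunc k) x.1.1 /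
      algebraMap k[X] (RatFunc k) x.2) ?_ ?_
    · intro x hx
      rw [mem_coe] at hx
      unfold Cop at hx
      rw [mem_filter, mem_product, mem_Mon] at hx
      obtain ⟨⟨-, hm, hd⟩, -⟩ := hx
      rw [mem_coe, mem_HtF]
      show Ht n (algebraMap k[X] (RatFunc k) x.1.1 / algebraMap k[X] (RatFunc k) x.2)
      constructor
      · by_cases h0 : x.1.1 = 0
        · rw [h0, map_zero, zero_div, RatFunc.num_zero]
          simp
        · exact (natDegree_le_of_dvd (RatFunc.num_div_dvd _ hm.ne_zero) h0).trans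
            (natDegree_of_mem x.1.2)
      · exact (natDegree_le_of_dvd (RatFunc.denom_div_dvd _ _) hm.ne_zero).trans hd.le
    · intro x hx y hy h
      rw [mem_coe] at hx hy
      unfold Cop at hx hy
      rw [mem_filter, mem_product, mem_Mon] at hx hy
      obtain ⟨⟨-, hm, hd⟩, hc⟩ := hx
      obtain ⟨⟨-, hm', hd'⟩, hc'⟩ := hy
      dsimp only at h
      have i1 : algebraMap k[X] (RatFunc k) x.2 ≠ 0 :=
        RatFunc.algebraMap_ne_zero hm.ne_zero
      have i2 : algebraMap k[X] (RatFunc k) y.2 ≠ 0 :=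
        RatFunc.algebraMap_ne_zero hm'.ne_zero
      rw [div_eq_div_iff i1 i2, ← map_mul, ← map_mul] at h
      have h1 : x.1.1 * y.2 = y.1.1 * x.2 := RatFunc.algebraMap_injective k h
      have d1 : x.2 ∣ y.2 := hc.symm.dvd_of_dvd_mul_left ⟨y.1.1, by rw [h1, mul_comm]⟩
      have d2 : y.2 ∣ x.2 := hc'.symm.dvd_of_dvd_mul_left ⟨x.1.1, by rw [← h1, mul_comm]⟩
      have h2 : x.2 = y.2 := eq_of_monic_of_associated hm hm' (associated_of_dvd_dvd d1 d2)
      rw [h2] at h1
      have h3 := mul_right_cancel₀ hm'.ne_zero h1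
      exact Prod.ext (Subtype.ext h3) h2
  exact_mod_cast h

theorem lower (h6 : (6 : k) ≠ 0) (hq5 : 5 ≤ Nat.card k) {n : ℕ} (hn : 0 < n) :
    (Nat.card k : ℝ) ^ (4 * n + 2) / 2 ≤
      ({x : RatFunc k × RatFunc k | Ht n x.1 ∧ Ht n x.2 ∧ 4 * x.1 ^ 3 + 27 * x.2 ^ 2 ≠ 0}.ncard :
        ℝ) := by
  classical
  have e1 : {x : RatFunc k × RatFunc k | Ht n x.1 ∧ Ht n x.2 ∧ 4 * x.1 ^ 3 + 27 * x.2 ^ 2 ≠ 0} =
      (((HtF k n ×ˢ HtF k n).filter fun x => ¬ 4 * x.1 ^ 3 + 27 * x.2 ^ 2 = 0 :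
        Finset (RatFunc k × RatFunc k)) : Set (RatFunc k × RatFunc k)) := by
    ext x
    rw [mem_coe, mem_filter, mem_product, mem_HtF, mem_HtF]
    constructor
    · rintro ⟨h1, h2, h3⟩
      exact ⟨⟨h1, h2⟩, h3⟩
    · rintro ⟨⟨h1, h2⟩, h3⟩
      exact ⟨h1, h2, h3⟩
  rw [e1, Set.ncard_coe_finset]
  have h27 : (27 : RatFunc k) ≠ 0 := by
    have h : (27 : k) ≠ 0 := by
      have : (27 : k) = 3 ^ 3 := by norm_num
      rw [this]; exact pow_ne_zero _ (n3 h6)
    have e : (27 : RatFunc k) = algebraMap k (RatFunc k) 27 := by rw [map_ofNat]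
    rw [e]
    exact (_root_.map_ne_zero _).2 h
  have hsing : ((HtF k n ×ˢ HtF k n).filter fun x => 4 * x.1 ^ 3 + 27 * x.2 ^ 2 = 0).card ≤
      2 * (HtF k n).card := by
    have h1 := card_le_mul_card_image (f := fun x : RatFunc k × RatFunc k => x.1)
      ((HtF k n ×ˢ HtF k n).filter fun x => 4 * x.1 ^ 3 + 27 * x.2 ^ 2 = 0) 2 (by
        intro A hA
        rw [mem_image] at hA
        obtain ⟨x₀, hx₀, hA⟩ := hA
        rw [mem_filter] at hx₀
        have h5 : ((HtF k n ×ˢ HtF k n).filter fun x => 4 * x.1 ^ 3 + 27 * x.2 ^ 2 = 0).filter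
            (fun x => x.1 = A) ⊆ {(A, x₀.2), (A, -x₀.2)} := by
          intro x hx
          rw [mem_filter, mem_filter] at hx
          obtain ⟨⟨-, h7⟩, h8⟩ := hx
          have h9 := hx₀.2
          rw [hA] at h9
          rw [h8] at h7
          have h10 : (27 : RatFunc k) * ((x.2 - x₀.2) * (x.2 + x₀.2)) = 0 := by
            linear_combination h7 - h9
          rw [mem_insert, mem_singleton]
          rcases mul_eq_zero.1 ((mul_eq_zero.1 h10).resolve_left h27) with h | h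
          · left
            exact Prod.ext h8 (sub_eq_zero.1 h)
          · right
            exact Prod.ext h8 (eq_neg_of_add_eq_zero_left h)
        exact (card_le_card h5).trans card_le_two)
    refine h1.trans (Nat.mul_le_mul_left _ (card_le_card ?_))
    intro a ha
    rw [mem_image] at ha
    obtain ⟨x, hx, rfl⟩ := ha
    rw [mem_filter, mem_product] at hx
    exact hx.1.1
  have htot := card_filter_add_card_filter_not (s := HtF k n ×ˢ HtF k n)
    (fun x : RatFunc k × RatFunc k => 4 * x.1 ^ 3 + 27 * x.2 ^ 2 = 0)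
  rw [card_product] at htot
  set h : ℝ := ((HtF k n).card : ℝ) with hh
  set u : ℝ := (((HtF k n ×ˢ HtF k n).filter fun x =>
    ¬ 4 * x.1 ^ 3 + 27 * x.2 ^ 2 = 0).card : ℝ) with hu
  have h1 : (((HtF k n ×ˢ HtF k n).filter fun x =>
      4 * x.1 ^ 3 + 27 * x.2 ^ 2 = 0).card : ℝ) ≤ 2 * h := by
    rw [hh]
    exact_mod_cast hsing
  have h2 : (((HtF k n ×ˢ HtF k n).filter fun x =>
      4 * x.1 ^ 3 + 27 * x.2 ^ 2 = 0).card : ℝ) + u = h * h := by
    rw [hh, hu]
    exact_mod_cast htot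
  have h3 := card_HtF hq5 n
  rw [← hh] at h3
  have hq : (5 : ℝ) ≤ Nat.card k := by exact_mod_cast hq5
  have h4 : (125 : ℝ) ≤ (Nat.card k : ℝ) ^ (2 * n + 1) := by
    calc (125 : ℝ) = 5 ^ 3 := by norm_num
      _ ≤ 5 ^ (2 * n + 1) := pow_le_pow_right₀ (by norm_num) (by omega)
      _ ≤ (Nat.card k : ℝ) ^ (2 * n + 1) := pow_le_pow_left₀ (by norm_num) hq _
  have h5 : (Nat.card k : ℝ) ^ (4 * n + 2) =
      (Nat.card k : ℝ) ^ (2 * n + 1) * (Nat.card k : ℝ) ^ (2 * n + 1) := by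
    rw [← pow_add]
    congr 1
    ring
  rw [h5]
  set Q := (Nat.card k : ℝ) ^ (2 * n + 1)
  nlinarith

end up

section rank

variable {k : Type} [Field k]

open Classical in
/-- the rank of `y ^ 2 = x ^ 3 + a x + b` over `k(t)` -/
noncomputable def rk (a b : RatFunc k) : ℕ := Module.finrank ℤ (curve a b).toAffine.Point

open Classical in
theorem rk_inv (h6 : (6 : k) ≠ 0) (u a b : RatFunc k) (hu0 : u ≠ 0)
    (hΔ : 4 * a ^ 3 + 27 * b ^ 2 ≠ 0) : rk (u ^ 4 * a) (u ^ 6 * b) = rk a b := by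
  have h2k : (2 : k) ≠ 0 := by
    intro h
    apply h6
    have e : (6 : k) = 3 * 2 := by norm_num
    rw [e, h, mul_zero]
  have h2 : (2 : RatFunc k) ≠ 0 := by
    have e : (2 : RatFunc k) = algebraMap k (RatFunc k) 2 := by rw [map_ofNat]
    rw [e]
    exact (_root_.map_ne_zero _).2 h2k
  have hrank := rank_scale h2 hu0 (rfl : u ^ 4 * a = u ^ 4 * a) (rfl : u ^ 6 * b = u ^ 6 * b) hΔ
  exact (congrArg Cardinal.toNat hrank).symm

open Classical in
theorem to_big (r : RatFunc k → RatFunc k → ℕ)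
    (hinv : ∀ u a b : RatFunc k, u ≠ 0 → 4 * a ^ 3 + 27 * b ^ 2 ≠ 0 →
      r (u ^ 4 * a) (u ^ 6 * b) = r a b)
    (H : ∀ (d : ℕ) (A B : k[X]), IsMin d A B →
      (d = 0 → r (algebraMap k[X] (RatFunc k) A) (algebraMap k[X] (RatFunc k) B) = 0) ∧
      (0 < d → Big d (r (algebraMap k[X] (RatFunc k) A) (algebraMap k[X] (RatFunc k) B)) A B))
    {n R : ℕ} (hR : 0 < R) {a b : RatFunc k} (ha : Ht n a) (hb : Ht n b)
    (hΔ : 4 * a ^ 3 + 27 * b ^ 2 ≠ 0) (hr : R ≤ r a b) :
    Big2 n R (a.num * mG a.denom b.denom) (b.num * mH a.denom b.denom) := by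
  set D := a.denom with hD
  set E := b.denom with hE
  have hD0 : D ≠ 0 := a.denom_ne_zero
  have hE0 : E ≠ 0 := b.denom_ne_zero
  have iD : algebraMap k[X] (RatFunc k) D ≠ 0 := RatFunc.algebraMap_ne_zero hD0
  have iE : algebraMap k[X] (RatFunc k) E ≠ 0 := RatFunc.algebraMap_ne_zero hE0
  have na : algebraMap k[X] (RatFunc k) a.num = a * algebraMap k[X] (RatFunc k) D := by
    have := RatFunc.num_div_denom a
    rw [div_eq_iff iD] at this
    exact this
  have nb : algebraMap k[X] (RatFunc k) b.num = b * algebraMap k[X] (RatFunc k) E := by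
    have := RatFunc.num_div_denom b
    rw [div_eq_iff iE] at this
    exact this
  set u := algebraMap k[X] (RatFunc k) D * algebraMap k[X] (RatFunc k) E with hu
  have hu0 : u ≠ 0 := mul_ne_zero iD iE
  have eA : algebraMap k[X] (RatFunc k) (a.num * mG D E) = u ^ 4 * a := by
    unfold mG
    rw [map_mul, map_mul, map_pow, map_pow, na, hu]
    ring
  have eB : algebraMap k[X] (RatFunc k) (b.num * mH D E) = u ^ 6 * b := by
    unfold mH
    rw [map_mul, map_mul, map_pow, map_pow, nb, hu]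
    ring
  have hΔ' : 4 * (a.num * mG D E) ^ 3 + 27 * (b.num * mH D E) ^ 2 ≠ 0 := by
    intro h
    have h1 := congrArg (algebraMap k[X] (RatFunc k)) h
    simp only [map_add, map_mul (algebraMap k[X] (RatFunc k)) 4,
      map_mul (algebraMap k[X] (RatFunc k)) 27, map_pow, map_ofNat, map_zero] at h1
    rw [eA, eB] at h1
    have h3 : u ^ 12 * (4 * a ^ 3 + 27 * b ^ 2) = 0 := by linear_combination h1
    exact mul_ne_zero (pow_ne_zero _ hu0) hΔ h3
  have dA : (a.num * mG D E).natDegree ≤ 8 * n := by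
    unfold mG
    refine (natDegree_mul_le).trans ?_
    have h3 : (D ^ 3 * E ^ 4).natDegree ≤ 3 * n + 4 * n := by
      refine natDegree_mul_le.trans ?_
      rw [natDegree_pow, natDegree_pow]
      exact Nat.add_le_add (Nat.mul_le_mul_left _ ha.2) (Nat.mul_le_mul_left _ hb.2)
    have := ha.1
    omega
  have dB : (b.num * mH D E).natDegree ≤ 12 * n := by
    unfold mH
    refine (natDegree_mul_le).trans ?_
    have h3 : (D ^ 6 * E ^ 5).natDegree ≤ 6 * n + 5 * n := by
      refine natDegree_mul_le.trans ?_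
      rw [natDegree_pow, natDegree_pow]
      exact Nat.add_le_add (Nat.mul_le_mul_left _ ha.2) (Nat.mul_le_mul_left _ hb.2)
    have := hb.1
    omega
  obtain ⟨s, A, B, d, hs0, hs, hA, hB, hd, hmin⟩ := exists_min hΔ' dA dB
  have is : algebraMap k[X] (RatFunc k) s ≠ 0 := RatFunc.algebraMap_ne_zero hs0
  have fA : algebraMap k[X] (RatFunc k) A = (u / algebraMap k[X] (RatFunc k) s) ^ 4 * a := by
    have h1 := eA
    rw [hA, map_mul, map_pow] at h1
    rw [div_pow, div_mul_eq_mul_div, eq_div_iff (pow_ne_zero _ is), ← h1]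
    ring
  have fB : algebraMap k[X] (RatFunc k) B = (u / algebraMap k[X] (RatFunc k) s) ^ 6 * b := by
    have h1 := eB
    rw [hB, map_mul, map_pow] at h1
    rw [div_pow, div_mul_eq_mul_div, eq_div_iff (pow_ne_zero _ is), ← h1]
    ring
  have hrk : r a b = r (algebraMap k[X] (RatFunc k) A) (algebraMap k[X] (RatFunc k) B) := by
    rw [fA, fB, hinv _ _ _ (div_ne_zero hu0 is) hΔ]
  obtain ⟨H0, H1⟩ := H d A B hmin
  rcases Nat.eq_zero_or_pos d with h0 | h0
  · rw [← hrk] at H0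
    have := H0 h0
    omega
  · obtain ⟨N, β, hN, hβ, hps, hc⟩ := H1 h0
    rw [← hrk] at hc
    exact ⟨s, A, B, d, N, β, hs0, hs, hA, hB, by omega, hβ, hps, hr.trans hc⟩

end rank

end Pool.Agent.TH180.RT
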