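import Pool.Agent.TH180.RT.Loc
import Pool.Agent.TH180.RT.Kh
import Pool.Agent.H341R2.MonicSum

/-!
The twisting symmetry of the traces of Frobenius of all curves with coefficients of bounded degree.
-/

set_option autoImplicit false
set_option linter.all false
set_option maxHeartbeats 1000000

open Polynomial Finset

namespace Pool.Agent.TH180.RT

section fib

theorem sum_fib {G H : Type} [AddCommGroup G] [Fintype G] [AddCommGroup H] [Fintype H]
    [DecidableEq H] (φ : G →+ H) (hφ : Function.Surjective φ) (g : H → ℝ) :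
    ∑ x, g (φ x) = (univ.filter fun x => φ x = 0).card * ∑ y, g y := by
  have h1 : ∑ x, g (φ x) = ∑ y, ∑ x ∈ univ.filter (fun x => φ x = y), g (φ x) :=
    (sum_fiberwise univ φ fun x => g (φ x)).symm
  rw [h1, mul_sum]
  refine sum_congr rfl fun y _ => ?_
  have h2 : ∑ x ∈ univ.filter (fun x => φ x = y), g (φ x) =
      ∑ x ∈ univ.filter (fun x => φ x = y), g y := by
    refine sum_congr rfl fun x hx => ?_
    rw [mem_filter] at hx
    rw [hx.2]
  rw [h2, sum_const, nsmul_eq_mul, AddMonoidHom.card_fiber_eq_of_mem_range φ (hφ y) (hφ 0)]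

theorem sum_twist {G H : Type} [AddCommGroup G] [Fintype G] [AddCommGroup H] [Fintype H]
    [DecidableEq H] (φ : G →+ H) (hφ : Function.Surjective φ) (g : H → ℝ) (e : H ≃ H) :
    ∑ x, g (e (φ x)) = ∑ x, g (φ x) := by
  rw [sum_fib φ hφ g, sum_fib φ hφ fun y => g (e y), Equiv.sum_comp]

end fib

section tw

variable {k : Type} [Field k] [Fintype k] [DecidableEq k]

/-- the trace at a prime -/
noncomputable def trP (A B P : k[X]) : ℤ :=
  (Nat.card k : ℤ) ^ P.natDegree - pts (AdjoinRoot P) (AdjoinRoot.mk P A) (AdjoinRoot.mk P B)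

theorem finAR {P : k[X]} (hP : P ≠ 0) : Finite (AdjoinRoot P) := by
  have : Module.Finite k (AdjoinRoot P) := (AdjoinRoot.powerBasis hP).finite
  exact Module.finite_of_finite k

theorem cardAR {P : k[X]} (hP : P ≠ 0) : Nat.card (AdjoinRoot P) = Nat.card k ^ P.natDegree := by
  have : Module.Finite k (AdjoinRoot P) := (AdjoinRoot.powerBasis hP).finite
  rw [Module.natCard_eq_pow_finrank (K := k), (AdjoinRoot.powerBasis hP).finrank,
    AdjoinRoot.powerBasis_dim]

theorem six_AR (h6 : (6 : k) ≠ 0) {P : k[X]} (hP : Irreducible P) : (6 : AdjoinRoot P) ≠ 0 := by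
  have : Fact (Irreducible P) := ⟨hP⟩
  have h : (6 : AdjoinRoot P) = algebraMap k (AdjoinRoot P) 6 := by rw [map_ofNat]
  rw [h]
  exact (_root_.map_ne_zero _).2 h6

open Classical in
theorem trP_eq {P : k[X]} (hP : Irreducible P) [Fact (Irreducible P)] [Fintype (AdjoinRoot P)]
    (A B : k[X]) : trP A B P = tr (AdjoinRoot.mk P A) (AdjoinRoot.mk P B) := by
  unfold trP tr
  rw [← Nat.card_eq_fintype_card, cardAR hP.ne_zero]
  push_cast
  rfl

theorem trP_bound (h6 : (6 : k) ≠ 0) {P : k[X]} (hP : Irreducible P) (A B : k[X]) :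
    |(trP A B P : ℝ)| ≤ 2 * √(Nat.card k) ^ P.natDegree := by
  classical
  have : Fact (Irreducible P) := ⟨hP⟩
  have := finAR hP.ne_zero
  let _ : Fintype (AdjoinRoot P) := Fintype.ofFinite _
  rw [trP_eq hP]
  have h := tr_bound (six_AR h6 hP) (AdjoinRoot.mk P A) (AdjoinRoot.mk P B)
  have e : √(Fintype.card (AdjoinRoot P) : ℝ) = √(Nat.card k) ^ P.natDegree := by
    rw [← Nat.card_eq_fintype_card, cardAR hP.ne_zero]
    push_cast
    rw [Real.sqrt_eq_iff_mul_self_eq (by positivity) (by positivity), ← mul_pow,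
      Real.mul_self_sqrt (by positivity)]
  rw [e] at h
  exact h

/-- the trace depends on the classes modulo `P` -/
theorem trP_congr {P A B A' B' : k[X]} (hA : P ∣ A - A') (hB : P ∣ B - B') :
    trP A B P = trP A' B' P := by
  unfold trP
  rw [AdjoinRoot.mk_eq_mk.2 hA, AdjoinRoot.mk_eq_mk.2 hB]

/-- the character -/
noncomputable def chi (l P : k[X]) : ℤ := by
  classical
  exact if h : Irreducible P then
    (have : Fact (Irreducible P) := ⟨h⟩
     have := finAR h.ne_zero
     letI : Fintype (AdjoinRoot P) := Fintype.ofFinite _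
     quadraticChar (AdjoinRoot P) (AdjoinRoot.mk P l)) else 0

theorem trP_twist (h6 : (6 : k) ≠ 0) {P : k[X]} (hP : Irreducible P) {l : k[X]} (hl : ¬ P ∣ l)
    (A B : k[X]) : trP (l ^ 2 * A) (l ^ 3 * B) P = chi l P * trP A B P := by
  classical
  unfold chi
  rw [dif_pos hP]
  have : Fact (Irreducible P) := ⟨hP⟩
  have := finAR hP.ne_zero
  let _ : Fintype (AdjoinRoot P) := Fintype.ofFinite _
  rw [trP_eq hP, trP_eq hP, map_mul, map_mul, map_pow, map_pow,
    tr_twist (six_AR h6 hP) (by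
      rw [Ne, AdjoinRoot.mk_eq_zero]
      exact hl)]

/-- there is a class with given character -/
theorem exists_chi (h6 : (6 : k) ≠ 0) {P : k[X]} (hP : Irreducible P) (b : Bool) :
    ∃ l : k[X], ¬ P ∣ l ∧ ∀ l' : k[X], P ∣ l' - l → chi l' P = if b then 1 else -1 := by
  classical
  have : Fact (Irreducible P) := ⟨hP⟩
  have := finAR hP.ne_zero
  let _ : Fintype (AdjoinRoot P) := Fintype.ofFinite _
  have hc : ∃ c : AdjoinRoot P, c ≠ 0 ∧ quadraticChar (AdjoinRoot P) c = if b then 1 else -1 := by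
    cases b with
    | true => exact ⟨1, one_ne_zero, by simp⟩
    | false =>
      obtain ⟨c, hc⟩ := quadraticChar_exists_neg_one (rc (six_AR h6 hP))
      refine ⟨c, ?_, by simpa using hc⟩
      rintro rfl
      simp at hc
  obtain ⟨c, hc0, hc⟩ := hc
  obtain ⟨l, rfl⟩ := AdjoinRoot.mk_surjective c
  refine ⟨l, ?_, fun l' hl' => ?_⟩
  · rw [← AdjoinRoot.mk_eq_zero]
    exact hc0
  · unfold chi
    rw [dif_pos hP, AdjoinRoot.mk_eq_mk.2 hl']
    exact hc

/-- the Chinese remainder theorem -/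
theorem exists_l (h6 : (6 : k) ≠ 0) (s : Finset k[X])
    (hs : ∀ P ∈ s, P.Monic ∧ Irreducible P) (ε : k[X] → Bool) :
    ∃ l : k[X], ∀ P ∈ s, ¬ P ∣ l ∧ chi l P = if ε P then 1 else -1 := by
  classical
  have h1 : ∀ P : s, ∃ l : k[X], ¬ P.1 ∣ l ∧ ∀ l' : k[X], P.1 ∣ l' - l →
      chi l' P.1 = if ε P.1 then 1 else -1 := fun P => exists_chi h6 (hs _ P.2).2 _
  choose f hf using h1
  obtain ⟨l, hl⟩ := IsDedekindDomain.exists_forall_sub_mem_ideal (s := s)
    (fun P : k[X] => Ideal.span {P}) (fun _ => 1)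
    (fun P hP => by
      rw [Ideal.prime_iff_isPrime (by
        rw [Ne, Ideal.span_singleton_eq_bot]
        exact (hs P hP).2.ne_zero)]
      exact (Ideal.span_singleton_prime (hs P hP).2.ne_zero).2 (hs P hP).2.prime)
    (fun P hP Q hQ hne h => by
      apply hne
      rw [Ideal.span_singleton_eq_span_singleton] at h
      exact eq_of_monic_of_associated (hs P hP).1 (hs Q hQ).1 h) f
  refine ⟨l, fun P hP => ?_⟩
  have h2 := hl P hP
  rw [pow_one, Ideal.mem_span_singleton] at h2
  refine ⟨fun h => (hf ⟨P, hP⟩).1 ?_, (hf ⟨P, hP⟩).2 l h2⟩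
  have : f ⟨P, hP⟩ = l - (l - f ⟨P, hP⟩) := by ring
  rw [this]
  exact dvd_sub h h2

end tw

end Pool.Agent.TH180.RT
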