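import Pool.Agent.TH180.RT.Sym

/-!
The moments of weighted sums of traces over all curves with coefficients of bounded degree.
-/

set_option autoImplicit false
set_option linter.all false
set_option maxHeartbeats 1000000

open Polynomial Finset

namespace Pool.Agent.TH180.RT

variable {k : Type} [Field k] [Fintype k] [DecidableEq k]

instance finLT (D : ℕ) : Finite (degreeLT k D) :=
  Finite.of_equiv _ (degreeLTEquiv k D).toEquiv.symm

noncomputable instance fintypeLT (D : ℕ) : Fintype (degreeLT k D) := Fintype.ofFinite _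

theorem card_LT (D : ℕ) : Fintype.card (degreeLT k D) = Fintype.card k ^ D := by
  rw [Fintype.card_congr (degreeLTEquiv k D).toEquiv]
  simp

/-- the pairs of polynomials -/
abbrev Om (k : Type) [Field k] (D₁ D₂ : ℕ) : Type := degreeLT k D₁ × degreeLT k D₂

/-- reduction modulo `M` -/
noncomputable def redM (M : k[X]) (D : ℕ) : degreeLT k D →+ AdjoinRoot M :=
  (AdjoinRoot.mk M).toAddMonoidHom.comp (degreeLT k D).subtype.toAddMonoidHom

theorem redM_apply (M : k[X]) (D : ℕ) (A : degreeLT k D) : redM M D A = AdjoinRoot.mk M A.1 := rfl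

theorem redM_surj {M : k[X]} (hM : M.Monic) {D : ℕ} (hD : M.natDegree ≤ D) :
    Function.Surjective (redM M D) := by
  intro c
  obtain ⟨f, rfl⟩ := AdjoinRoot.mk_surjective c
  by_cases h1 : M = 1
  · refine ⟨0, ?_⟩
    rw [map_zero, eq_comm, AdjoinRoot.mk_eq_zero, h1]
    exact one_dvd _
  · refine ⟨⟨f %ₘ M, ?_⟩, ?_⟩
    · rw [mem_degreeLT]
      refine (degree_modByMonic_lt f hM).trans_le ?_
      rw [degree_eq_natDegree hM.ne_zero]
      exact_mod_cast hD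
    · rw [redM_apply, AdjoinRoot.mk_eq_mk]
      have := modByMonic_add_div f M
      refine ⟨-(f /ₘ M), ?_⟩
      linear_combination this

theorem sym_class {M : k[X]} (hM : M.Monic) {D₁ D₂ : ℕ} (h1 : M.natDegree ≤ D₁)
    (h2 : M.natDegree ≤ D₂) {l : k[X]} (hl : IsCoprime l M) (F : k[X] → k[X] → ℝ)
    (hF : ∀ A A' B B', M ∣ A - A' → M ∣ B - B' → F A B = F A' B') :
    ∑ ω : Om k D₁ D₂, F (l ^ 2 * ω.1.1) (l ^ 3 * ω.2.1) = ∑ ω : Om k D₁ D₂, F ω.1.1 ω.2.1 := by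
  classical
  have hfin : Finite (AdjoinRoot M) := finAR hM.ne_zero
  let _ : Fintype (AdjoinRoot M) := Fintype.ofFinite _
  have hu : IsUnit (AdjoinRoot.mk M l) := by
    obtain ⟨a, b, hab⟩ := hl
    refine IsUnit.of_mul_eq_one (AdjoinRoot.mk M a) ?_
    rw [← map_mul, ← map_one (AdjoinRoot.mk M), AdjoinRoot.mk_eq_mk]
    exact ⟨-b, by linear_combination hab⟩
  obtain ⟨u, hu⟩ := hu
  set rep : AdjoinRoot M → k[X] := Function.surjInv AdjoinRoot.mk_surjective with hrep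
  have hr : ∀ c, AdjoinRoot.mk M (rep c) = c := Function.surjInv_eq _
  let φ : Om k D₁ D₂ →+ AdjoinRoot M × AdjoinRoot M := (redM M D₁).prodMap (redM M D₂)
  have hφ : Function.Surjective φ := by
    rintro ⟨a, b⟩
    obtain ⟨x, hx⟩ := redM_surj hM h1 a
    obtain ⟨y, hy⟩ := redM_surj hM h2 b
    exact ⟨(x, y), by
      show (redM M D₁ x, redM M D₂ y) = (a, b)
      rw [hx, hy]⟩
  let g : AdjoinRoot M × AdjoinRoot M → ℝ := fun c => F (rep c.1) (rep c.2)
  let e : AdjoinRoot M × AdjoinRoot M ≃ AdjoinRoot M × AdjoinRoot M :=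
    (Units.mulLeft (u ^ 2)).prodCongr (Units.mulLeft (u ^ 3))
  have key := sum_twist φ hφ g e
  have e1 : ∀ ω : Om k D₁ D₂, g (e (φ ω)) = F (l ^ 2 * ω.1.1) (l ^ 3 * ω.2.1) := by
    intro ω
    show F (rep (((u ^ 2 : (AdjoinRoot M)ˣ) : AdjoinRoot M) * AdjoinRoot.mk M ω.1.1))
      (rep (((u ^ 3 : (AdjoinRoot M)ˣ) : AdjoinRoot M) * AdjoinRoot.mk M ω.2.1)) = _
    apply hF
    · rw [← AdjoinRoot.mk_eq_mk, hr, map_mul, map_pow, ← hu]
      push_cast
      rfl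
    · rw [← AdjoinRoot.mk_eq_mk, hr, map_mul, map_pow, ← hu]
      push_cast
      rfl
  have e2 : ∀ ω : Om k D₁ D₂, g (φ ω) = F ω.1.1 ω.2.1 := by
    intro ω
    show F (rep (AdjoinRoot.mk M ω.1.1)) (rep (AdjoinRoot.mk M ω.2.1)) = _
    apply hF
    · rw [← AdjoinRoot.mk_eq_mk, hr]
    · rw [← AdjoinRoot.mk_eq_mk, hr]
  rw [sum_congr rfl fun ω _ => e1 ω, sum_congr rfl fun ω _ => e2 ω] at key
  exact key

/-- the symmetry of the moments -/
theorem sym_main (h6 : (6 : k) ≠ 0) (S : Finset k[X]) {Y n D₁ D₂ : ℕ}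
    (hS : ∀ P ∈ S, P.Monic ∧ Irreducible P ∧ P.natDegree ≤ Y) (h1 : n * Y ≤ D₁) (h2 : n * Y ≤ D₂)
    (w : k[X] → ℝ) (ε : S → Bool) :
    ∑ ω : Om k D₁ D₂, (∑ P : S, sg (ε P) * (w P * trP ω.1.1 ω.2.1 P)) ^ n =
      ∑ ω : Om k D₁ D₂, (∑ P : S, w P * trP ω.1.1 ω.2.1 P.1) ^ n := by
  classical
  simp_rw [Fintype.sum_pow]
  rw [sum_comm, sum_comm (s := (univ : Finset (Om k D₁ D₂)))]
  refine sum_congr rfl fun p _ => ?_
  set M : k[X] := ∏ i, (p i).1 with hM
  have hmon : M.Monic := monic_prod_of_monic _ _ fun i _ => (hS _ (p i).2).1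
  have hdeg : M.natDegree ≤ n * Y := by
    rw [hM, natDegree_prod_of_monic _ _ fun i _ => (hS _ (p i).2).1]
    calc ∑ i, ((p i).1).natDegree ≤ ∑ i : Fin n, Y := sum_le_sum fun i _ => (hS _ (p i).2).2.2
      _ = n * Y := by simp
  obtain ⟨l, hl⟩ := exists_l h6 S (fun P hP => ⟨(hS P hP).1, (hS P hP).2.1⟩)
    (fun P => if h : P ∈ S then ε ⟨P, h⟩ else true)
  have hcop : IsCoprime l M := by
    rw [hM]
    refine IsCoprime.prod_right fun i _ => ?_
    exact ((hS _ (p i).2).2.1.coprime_iff_not_dvd.2 (hl _ (p i).2).1).symm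
  have key := sym_class hmon (hdeg.trans h1) (hdeg.trans h2) hcop
    (fun A B => ∏ i, w (p i) * trP A B (p i).1) (by
      intro A A' B B' hA hB
      refine prod_congr rfl fun i _ => ?_
      have hd : (p i).1 ∣ M := dvd_prod_of_mem _ (mem_univ i)
      rw [trP_congr (hd.trans hA) (hd.trans hB)])
  rw [← key]
  refine sum_congr rfl fun ω _ => prod_congr rfl fun i _ => ?_
  rw [trP_twist h6 (hS _ (p i).2).2.1 (hl _ (p i).2).1]
  have h3 := (hl _ (p i).2).2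
  rw [dif_pos (p i).2] at h3
  rw [h3]
  unfold sg
  cases ε (p i) <;> simp

/-- the moment bound for weighted sums of traces -/
theorem moment_tr (h6 : (6 : k) ≠ 0) (S : Finset k[X]) {Y m D₁ D₂ : ℕ}
    (hS : ∀ P ∈ S, P.Monic ∧ Irreducible P ∧ P.natDegree ≤ Y) (hm : 0 < m)
    (h1 : 2 * m * Y ≤ D₁) (h2 : 2 * m * Y ≤ D₂) (w : k[X] → ℝ) {V : ℝ} (hV : 0 < V)
    (hw : ∀ A B : k[X], ∑ P ∈ S, (w P * trP A B P) ^ 2 ≤ V) :
    ∑ ω : Om k D₁ D₂, (∑ P ∈ S, w P * trP ω.1.1 ω.2.1 P) ^ (2 * m) ≤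
      (Fintype.card k : ℝ) ^ (D₁ + D₂) *
        (2 * (2 * m).factorial * (Real.exp 1 * V / (2 * m)) ^ m) := by
  classical
  have key := moment (Ω := Om k D₁ D₂) (ι := S) (fun P ω => w P * trP ω.1.1 ω.2.1 P.1) hV
    (fun ω => by
      rw [sum_coe_sort S fun P => (w P * (trP ω.1.1 ω.2.1 P : ℝ)) ^ 2]
      exact hw _ _) hm (fun ε => sym_main h6 S hS h1 h2 w ε)
  have e1 : (Fintype.card (Om k D₁ D₂) : ℝ) = (Fintype.card k : ℝ) ^ (D₁ + D₂) := by
    rw [Fintype.card_prod, card_LT, card_LT]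
    push_cast
    rw [pow_add]
  rw [e1] at key
  refine le_trans (le_of_eq ?_) key
  refine sum_congr rfl fun ω _ => ?_
  rw [sum_coe_sort S fun P => w P * (trP ω.1.1 ω.2.1 P : ℝ)]

end Pool.Agent.TH180.RT
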